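import Pool.Agent.Helper91_PP.Rec

namespace H91PP

open TriSphere

theorem s_inj (S : TriSphere) (t : S.T) : Function.Injective (S.s t) := by
  intro i j hij
  by_contra hne
  have h1 := S.s_ends t i
  have h2 := S.s_ends t j
  rw [hij] at h1
  have hc := S.c_inj t
  have key : (S.c t i = S.c t j ∧ S.c t (i+1) = S.c t (j+1)) ∨
      (S.c t i = S.c t (j+1) ∧ S.c t (i+1) = S.c t j) := by
    rcases h1 with ⟨a1, b1⟩ | ⟨a1, b1⟩ <;> rcases h2 with ⟨a2, b2⟩ | ⟨a2, b2⟩
    · exact Or.inl ⟨a1.symm.trans a2, b1.symm.trans b2⟩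
    · exact Or.inr ⟨a1.symm.trans a2, b1.symm.trans b2⟩
    · exact Or.inr ⟨b1.symm.trans b2, a1.symm.trans a2⟩
    · exact Or.inl ⟨b1.symm.trans b2, a1.symm.trans a2⟩
  rcases key with ⟨k1, k2⟩ | ⟨k1, k2⟩
  · exact hne (hc k1)
  · have e1 := hc k1
    have e2 := hc k2
    have : ∀ i j : Fin 3, i = j + 1 → i + 1 = j → False := by decide
    exact this i j e1 e2

theorem bd_single (S : TriSphere) (t : S.T) (e : S.E) :
    e ∈ S.bd ({t}ᶜ : Set S.T) ↔ ∃ i, S.s t i = e := by
  constructor
  · intro h
    by_cases h1 : S.l e = t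
    · obtain ⟨i, hi⟩ := S.l_s e
      rw [h1] at hi
      exact ⟨i, hi⟩
    · by_cases h2 : S.r e = t
      · obtain ⟨i, hi⟩ := S.r_s e
        rw [h2] at hi
        exact ⟨i, hi⟩
      · exfalso
        apply h
        constructor
        · intro _; exact h2
        · intro _; exact h1
  · rintro ⟨i, rfl⟩ hiff
    rcases S.s_lr t i with h | h
    · have h2 : S.r (S.s t i) ≠ t := fun h' => S.lr _ (h.trans h'.symm)
      exact (hiff.2 h2) h
    · have h2 : S.l (S.s t i) ≠ t := fun h' => S.lr _ (h'.trans h.symm)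
      exact (hiff.1 h2) h

theorem rec_thm : RecStatement := by
  classical
  intro S M hM hRF hCS hCh hSel
  obtain ⟨t0⟩ := S.ne
  have hfT := S.fT
  have hfV := S.fV
  set R : Set S.T := {t0}ᶜ with hRdef
  set L : List (S.V × S.E) := [(S.c t0 0, S.s t0 0), (S.c t0 1, S.s t0 1), (S.c t0 2, S.s t0 2)]
    with hL
  have hc := S.c_inj t0
  have hs := s_inj S t0
  have hc01 : S.c t0 0 ≠ S.c t0 1 := fun h => by have := hc h; revert this; decide
  have hc02 : S.c t0 0 ≠ S.c t0 2 := fun h => by have := hc h; revert this; decide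
  have hc12 : S.c t0 1 ≠ S.c t0 2 := fun h => by have := hc h; revert this; decide
  have hs01 : S.s t0 0 ≠ S.s t0 1 := fun h => by have := hs h; revert this; decide
  have hs02 : S.s t0 0 ≠ S.s t0 2 := fun h => by have := hs h; revert this; decide
  have hs12 : S.s t0 1 ≠ S.s t0 2 := fun h => by have := hs h; revert this; decide
  have hR : S.IsRegion R L (S.c t0 0) := by
    refine ⟨?_, ?_, ?_, by simp [hL], ?_⟩
    · refine ⟨rfl, S.c t0 1, S.s_ends t0 0, rfl, S.c t0 2, S.s_ends t0 1, rfl, S.c t0 0, ?_, rfl⟩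
      exact S.s_ends t0 2
    · simp [hL, hc01, hc02, hc12]
    · simp [hL, hs01, hs02, hs12]
    · intro e
      rw [bd_single]
      simp only [hL, List.map_cons, List.map_nil, List.mem_cons, List.not_mem_nil, or_false]
      constructor
      · rintro ⟨i, rfl⟩
        fin_cases i
        · exact Or.inl rfl
        · exact Or.inr (Or.inl rfl)
        · exact Or.inr (Or.inr rfl)
      · rintro (rfl | rfl | rfl)
        · exact ⟨0, rfl⟩
        · exact ⟨1, rfl⟩
        · exact ⟨2, rfl⟩
  let N : S.V → Finset S.V := fun v => if v = S.c t0 1 then {S.c t0 0} else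
    if v = S.c t0 2 then {S.c t0 0, S.c t0 1} else ∅
  let rk : S.V → ℕ := fun v => if v = S.c t0 0 then 0 else if v = S.c t0 1 then 1 else 2
  have hmem : ∀ v, v ∈ L.map Prod.fst ↔ v = S.c t0 0 ∨ v = S.c t0 1 ∨ v = S.c t0 2 := by
    intro v
    simp [hL]
  have N0 : N (S.c t0 0) = ∅ := by simp [N, hc01, hc02]
  have N1 : N (S.c t0 1) = {S.c t0 0} := by simp [N]
  have N2 : N (S.c t0 2) = {S.c t0 0, S.c t0 1} := by simp [N, hc12.symm]
  have r0 : rk (S.c t0 0) = 0 := by simp [rk]
  have r1 : rk (S.c t0 1) = 1 := by simp [rk, hc01.symm]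
  have r2 : rk (S.c t0 2) = 2 := by simp [rk, hc02.symm, hc12.symm]
  obtain ⟨ℓ', lab', N', rk', p1, p2, p3, p4, p5, p6⟩ :=
    rec_main S M hRF hCS hCh hSel R.ncard R L (S.c t0 0) le_rfl hR (fun _ => 0) id N rk 2
      (by intro v _; exact Nat.zero_le _) (by intro x _ y _ p; exact Nat.zero_le _)
      (by
        have : chg (id : S.V → S.V) (L.map Prod.fst ++ [S.c t0 0]) ≤ 3 := by
          simp only [hL, List.map_cons, List.map_nil, List.cons_append, List.nil_append,
            chg_cons_cons]
          have : chg (id : S.V → S.V) [S.c t0 0] = 0 := rfl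
          rw [this]
          split_ifs <;> omega
        omega)
      (by
        intro x hx y hy hxy
        simp only [id] at hxy ⊢
        rw [hmem] at hx hy
        rcases hx with rfl | rfl | rfl <;> rcases hy with rfl | rfl | rfl <;>
          simp_all)
      (by
        intro x hx h
        exact h.2 hx)
      (by
        intro x hx
        simp only [id]
        rw [hmem] at hx
        rcases hx with rfl | rfl | rfl <;> omega)
  -- every vertex is a vertex of R or of the boundary
  have hall : ∀ v, v ∉ L.map Prod.fst → v ∈ Int S R L := by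
    intro v hv
    refine ⟨?_, hv⟩
    obtain ⟨t, i, hi⟩ := S.vt v
    refine ⟨t, ?_, i, hi⟩
    intro ht
    rw [Set.mem_singleton_iff] at ht
    subst ht
    apply hv
    rw [hmem, ← hi]
    fin_cases i
    · exact Or.inl rfl
    · exact Or.inr (Or.inl rfl)
    · exact Or.inr (Or.inr rfl)
  have hedge : ∀ x y, (S.grE Set.univ).Adj x y → (S.gr R).Adj x y := by
    rintro x y ⟨e, -, hj⟩
    refine ⟨e, ?_, hj⟩
    by_cases h : S.l e = t0
    · right
      intro h'
      exact S.lr e (h.trans h'.symm)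
    · left; exact h
  have hF : ∀ v ∈ L.map Prod.fst, ℓ' v = 0 ∧ lab' v = v ∧ N' v = N v ∧ rk' v = rk v := by
    intro v hv
    exact p1 v (fun h => h.2 hv)
  refine ⟨ℓ', lab', N', rk', ?_, ?_, ?_, ?_, ?_, ?_, ?_⟩
  · intro v
    by_cases hv : v ∈ L.map Prod.fst
    · rw [(hF v hv).1]; exact Nat.zero_le _
    · exact (p2 v (hall v hv)).1
  · intro x y hxy; exact p3 x y (hedge x y hxy)
  · intro x y hlab hℓ
    by_cases hx : x ∈ L.map Prod.fst <;> by_cases hy : y ∈ L.map Prod.fst
    · rw [(hF x hx).2.1, (hF y hy).2.1] at hlab; exact hlab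
    · exfalso
      have h1 := (p2 y (hall y hy)).2
      rw [← hlab, (hF x hx).2.1] at h1
      exact h1.2 hx
    · exfalso
      have h1 := (p2 x (hall x hx)).2
      rw [hlab, (hF y hy).2.1] at h1
      exact h1.2 hy
    · exact p4 x (hall x hx) y (hall y hy) hlab hℓ
  · intro x y hxy; exact p5 x y (hedge x y hxy)
  · intro y
    by_cases hy : y ∈ L.map Prod.fst
    · rw [(hF y hy).2.2.1]
      rw [hmem] at hy
      rcases hy with rfl | rfl | rfl
      · rw [N0]; simp
      · rw [N1]; simp
      · rw [N2]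
        have := Finset.card_le_two (a := S.c t0 0) (b := S.c t0 1)
        omega
    · exact (p6 y (hall y hy)).1
  · intro y z hz
    by_cases hy : y ∈ L.map Prod.fst
    · rw [(hF y hy).2.2.1] at hz
      rw [(hF y hy).2.2.2]
      have h0 : S.c t0 0 ∈ L.map Prod.fst := by rw [hmem]; exact Or.inl rfl
      have h1 : S.c t0 1 ∈ L.map Prod.fst := by rw [hmem]; exact Or.inr (Or.inl rfl)
      rw [hmem] at hy
      rcases hy with rfl | rfl | rfl
      · rw [N0] at hz; simp at hz
      · rw [N1, Finset.mem_singleton] at hz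
        rw [hz, (hF _ h0).2.2.2, r0, r1]; omega
      · rw [N2, Finset.mem_insert, Finset.mem_singleton] at hz
        rcases hz with hz | hz
        · rw [hz, (hF _ h0).2.2.2, r0, r2]; omega
        · rw [hz, (hF _ h1).2.2.2, r1, r2]; omega
    · exact (p6 y (hall y hy)).2.1 z hz
  · intro y z hz w hw hzw
    by_cases hy : y ∈ L.map Prod.fst
    · rw [(hF y hy).2.2.1] at hz hw
      have h0 : S.c t0 0 ∈ L.map Prod.fst := by rw [hmem]; exact Or.inl rfl
      have h1 : S.c t0 1 ∈ L.map Prod.fst := by rw [hmem]; exact Or.inr (Or.inl rfl)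
      rw [hmem] at hy
      rcases hy with rfl | rfl | rfl
      · rw [N0] at hz; simp at hz
      · rw [N1, Finset.mem_singleton] at hz hw
        exact absurd (hz.trans hw.symm) hzw
      · rw [N2, Finset.mem_insert, Finset.mem_singleton] at hz hw
        rcases hz with hz | hz <;> rcases hw with hw | hw
        · exact absurd (hz.trans hw.symm) hzw
        · left; rw [hw, hz, (hF _ h1).2.2.1, N1]; simp
        · right; rw [hw, hz, (hF _ h1).2.2.1, N1]; simp
        · exact absurd (hz.trans hw.symm) hzw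
    · exact (p6 y (hall y hy)).2.2.1 z hz w hw hzw

end H91PP
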