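import Pool.Agent.Helper91_PP.Final
import Pool.Agent.Helper91_PP.RecTop
import Pool.Agent.Helper41_PP.Sep
import Pool.Agent.Helper83_PP.Region
import Pool.Agent.Helper83_PP.Split
import Pool.Agent.Helper83_PP.Hom
import Pool.Agent.Helper79_PP.Level
import Pool.Agent.Helper77_PP.Bfs
import Pool.Agent.Helper35_PP.Chord
import Pool.Agent.Helper55_PP.Select
import Pool.Agent.Helper57_PP.Cert
import Pool.Agent.Helper57_PP.ShortCount
import Pool.Agent.Helper39_PP.ShortTw
import Pool.Agent.Helper39_PP.TreeSep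
import Pool.Agent.Helper14_PP.Stell

namespace H91PP

theorem all :
    (∀ (V : Type) [Finite V] (G : SimpleGraph V), IsPlanar G →
      ∀ k, TreewidthLE G k →
        ∃ (W : Type) (_ : Finite W) (H : SimpleGraph W) (m : ℕ), TreewidthLE H 110 ∧
          Embeds G (StrongProd H (SimpleGraph.pathGraph m)) ∧ m ≤ 5 * (k + 1)) ∧
    (∀ (V : Type) [Finite V] (G : SimpleGraph V), IsPlanar G →
        ∃ (W : Type) (_ : Finite W) (H : SimpleGraph W) (m : ℕ), TreewidthLE H 110 ∧
          Embeds G (StrongProd H (SimpleGraph.pathGraph m)) ∧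
          (m : ℝ) ≤ 6 * Real.sqrt (Nat.card V)) :=
  final Helper41_PP.sep Helper83_PP.regionFacts Helper83_PP.chordSplit Helper79_PP.level
    Helper77_PP.bfs Helper77_PP.fold_spec Helper35_PP.chord Helper55_PP.select rec_thm
    Helper57_PP.cert Helper57_PP.shortCount Helper39_PP.shortTw Helper39_PP.treeSep
    (Helper14_PP.stell Helper83_PP.hom)

end H91PP
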