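import Pool.Agent.Helper91_PP.Planar

/-!
# MP_9863c1_co : product structure of planar graphs with a short path factor

Interface file: definitions and module statements.
-/

namespace H91PP

/-! ## Triangulated spheres -/

/-- A finite combinatorial triangulated sphere; parallel edges are allowed, loops are not. -/
structure TriSphere where
  V : Type
  E : Type
  T : Type
  fV : Finite V
  fE : Finite E
  fT : Finite T
  /-- the two ends of an edge -/
  a : E → V
  b : E → V
  ab : ∀ e, a e ≠ b e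
  /-- the two triangles containing an edge -/
  l : E → T
  r : E → T
  lr : ∀ e, l e ≠ r e
  /-- the three corners of a triangle -/
  c : T → Fin 3 → V
  c_inj : ∀ t, Function.Injective (c t)
  /-- the three sides of a triangle; side `i` joins corner `i` and corner `i + 1` -/
  s : T → Fin 3 → E
  s_ends : ∀ t i, (a (s t i) = c t i ∧ b (s t i) = c t (i + 1)) ∨
    (a (s t i) = c t (i + 1) ∧ b (s t i) = c t i)
  s_lr : ∀ t i, l (s t i) = t ∨ r (s t i) = t
  l_s : ∀ e, ∃ i, s (l e) i = e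
  r_s : ∀ e, ∃ i, s (r e) i = e
  /-- the triangles around a vertex are connected through edges at that vertex -/
  link : ∀ (v : V) (N : Set T), (∃ t ∈ N, ∃ i, c t i = v) → (∃ t, t ∉ N ∧ ∃ i, c t i = v) →
    ∃ e, (a e = v ∨ b e = v) ∧ ¬ (l e ∈ N ↔ r e ∈ N)
  /-- the surface is connected -/
  conn : ∀ N : Set T, (∀ e, l e ∈ N ↔ r e ∈ N) → N = ∅ ∨ N = Set.univ
  /-- first homology with coefficients modulo `2` vanishes -/
  hom : ∀ Z : Set E, (∀ v, Even (Set.ncard {e | e ∈ Z ∧ (a e = v ∨ b e = v)})) →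
    ∃ N : Set T, ∀ e, e ∈ Z ↔ ¬ (l e ∈ N ↔ r e ∈ N)
  vt : ∀ v, ∃ t i, c t i = v
  ne : Nonempty T

namespace TriSphere

variable (S : TriSphere)

/-- `e` joins `x` and `y`. -/
def Joins (e : S.E) (x y : S.V) : Prop :=
  (S.a e = x ∧ S.b e = y) ∨ (S.a e = y ∧ S.b e = x)

/-- boundary edges of a set of triangles -/
def bd (N : Set S.T) : Set S.E := {e | ¬ (S.l e ∈ N ↔ S.r e ∈ N)}

/-- edges of a set of triangles -/
def ER (R : Set S.T) : Set S.E := {e | S.l e ∈ R ∨ S.r e ∈ R}

/-- vertices of a set of triangles -/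
def VR (R : Set S.T) : Set S.V := {v | ∃ t ∈ R, ∃ i, S.c t i = v}

/-- graph of a set of edges -/
def grE (Z : Set S.E) : SimpleGraph S.V where
  Adj x y := ∃ e ∈ Z, S.Joins e x y
  symm := ⟨by
    rintro x y ⟨e, he, h⟩
    exact ⟨e, he, h.symm⟩⟩
  loopless := ⟨by
    rintro x ⟨e, -, h⟩
    rcases h with h | h
    · exact S.ab e (h.1.trans h.2.symm)
    · exact S.ab e (h.1.trans h.2.symm)⟩

/-- graph of a set of triangles -/
def gr (R : Set S.T) : SimpleGraph S.V := S.grE (S.ER R)

/-- `L` is a walk from `u` to `w`: the list of pairs (vertex, edge leaving it). -/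
def IsW : S.V → List (S.V × S.E) → S.V → Prop
  | u, [], w => u = w
  | u, p :: L, w => u = p.1 ∧ ∃ v', S.Joins p.2 p.1 v' ∧ IsW v' L w

/-- `R` is a region bounded by the simple closed walk `L` based at `u`. -/
structure IsRegion (R : Set S.T) (L : List (S.V × S.E)) (u : S.V) : Prop where
  walk : S.IsW u L u
  vnd : (L.map Prod.fst).Nodup
  end_ : (L.map Prod.snd).Nodup
  ne : L ≠ []
  bd_eq : ∀ e, e ∈ S.bd R ↔ e ∈ L.map Prod.snd

/-- `Q` is a chord from `b1` to `b2` of the region `R` with boundary `L`. -/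
structure IsChord (R : Set S.T) (L Q : List (S.V × S.E)) (b1 b2 : S.V) : Prop where
  walk : S.IsW b1 Q b2
  ne : Q ≠ []
  b12 : b1 ≠ b2
  b1F : b1 ∈ L.map Prod.fst
  b2F : b2 ∈ L.map Prod.fst
  nd : (Q.map Prod.fst ++ [b2]).Nodup
  int : ∀ v ∈ Q.map Prod.fst, v = b1 ∨ v ∉ L.map Prod.fst
  ed : ∀ e ∈ Q.map Prod.snd, e ∈ S.ER R ∧ e ∉ L.map Prod.snd

end TriSphere

/-- number of changes of the label `f` along a list -/
noncomputable def chg {α β : Type} (f : α → β) : List α → ℕ
  | [] => 0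
  | [_] => 0
  | x :: y :: l => (open Classical in if f x = f y then 0 else 1) + chg f (y :: l)

/-- `m` is the extension of `ℓ` from `B` to `Γ` by distances. -/
structure IsExt {V : Type} (Γ : SimpleGraph V) (B : Set V) (ℓ m : V → ℕ) : Prop where
  eq : ∀ x ∈ B, m x = ℓ x
  lip : ∀ x y, Γ.Adj x y → (∃ b ∈ B, Γ.Reachable b x) → m y ≤ m x + 1
  par : ∀ x, (∃ b ∈ B, Γ.Reachable b x) → x ∉ B → ∃ y, Γ.Adj x y ∧ m x = m y + 1
  ub : ∀ b ∈ B, ∀ x, ∀ p : Γ.Walk b x, m x ≤ ℓ b + p.length

/-- `Up m vs`: along the list `vs` the function `m` goes up by exactly one at every step. -/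
def Up {V : Type} (m : V → ℕ) : List V → Prop
  | [] => True
  | [_] => True
  | x :: y :: l => m y = m x + 1 ∧ Up m (y :: l)

end H91PP
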