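import Pool.Agent.Helper91_PP.Statements

namespace H91PP

open TriSphere

/-- certificate for a graph `G` -/
def GoodOut {V : Type} (G : SimpleGraph V) (M : ℕ) : Prop :=
  ∃ (W : Type) (_ : Finite W) (f : V → W × ℕ) (N : W → Finset W) (rk : W → ℕ),
    Function.Injective f ∧ (∀ v, (f v).2 ≤ M) ∧
    (∀ x y, G.Adj x y → (f x).2 ≤ (f y).2 + 1 ∧
      ((f x).1 = (f y).1 ∨ (f x).1 ∈ N (f y).1 ∨ (f y).1 ∈ N (f x).1)) ∧
    (∀ y, (N y).card ≤ 110) ∧
    (∀ y, ∀ z ∈ N y, rk z < rk y) ∧
    (∀ y, ∀ z ∈ N y, ∀ w ∈ N y, z ≠ w → z ∈ N w ∨ w ∈ N z)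

theorem goodOut_of_cert {V : Type} (G : SimpleGraph V) (S : TriSphere) (M : ℕ) (ι : V → S.V)
    (hι : Function.Injective ι) (hadj : ∀ x y, G.Adj x y → (S.grE Set.univ).Adj (ι x) (ι y))
    (h : CertOut S M) : GoodOut G M := by
  obtain ⟨ℓ, lab, N, rk, h1, h2, h3, h4, h5, h6, h7⟩ := h
  refine ⟨S.V, S.fV, fun v => (lab (ι v), ℓ (ι v)), N, rk, ?_, fun v => h1 _, ?_, h5, h6, h7⟩
  · intro x y hxy
    simp only [Prod.mk.injEq] at hxy
    exact hι (h3 _ _ hxy.1 hxy.2)
  · intro x y hxy
    exact ⟨h2 _ _ (hadj x y hxy), h4 _ _ (hadj x y hxy)⟩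

theorem goodOut_single {V : Type} (G : SimpleGraph V) (h : Nat.card V = 1) (M : ℕ) :
    GoodOut G M := by
  have hs : Subsingleton V := by
    rw [Nat.card_eq_one_iff_unique] at h
    exact h.1
  refine ⟨Unit, inferInstance, fun _ => ((), 0), fun _ => ∅, fun _ => 0, ?_, ?_, ?_, ?_, ?_, ?_⟩
  · intro x y _; exact Subsingleton.elim x y
  · intro v; exact Nat.zero_le _
  · intro x y hxy
    exact absurd (Subsingleton.elim x y) hxy.ne
  · intro y; simp
  · intro y z hz; simp at hz
  · intro y z hz; simp at hz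

open Classical in
theorem goodOut_components {V : Type} [Finite V] (G : SimpleGraph V) (M : ℕ)
    (h : ∀ c : G.ConnectedComponent, GoodOut (G.induce c.supp) M) : GoodOut G M := by
  choose W hW f N rk h1 h2 h3 h4 h5 h6 using h
  have hfin : Finite G.ConnectedComponent := Quot.finite _
  let g : V → (Σ c : G.ConnectedComponent, W c) × ℕ := fun v =>
    (⟨G.connectedComponentMk v, (f (G.connectedComponentMk v) ⟨v, rfl⟩).1⟩,
      (f (G.connectedComponentMk v) ⟨v, rfl⟩).2)
  have hsig : ∀ (c : G.ConnectedComponent), Function.Injective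
      (fun w : W c => (⟨c, w⟩ : Σ c : G.ConnectedComponent, W c)) := by
    intro c x y hxy
    exact eq_of_heq (Sigma.mk.inj hxy).2
  refine ⟨Σ c, W c, inferInstance, g,
    fun y => (N y.1 y.2).map ⟨fun w => ⟨y.1, w⟩, hsig y.1⟩, fun y => rk y.1 y.2, ?_, ?_, ?_, ?_, ?_, ?_⟩
  · -- injective
    have key : ∀ (x : V) (c : G.ConnectedComponent) (hx : G.connectedComponentMk x = c),
        g x = (⟨c, (f c ⟨x, hx⟩).1⟩, (f c ⟨x, hx⟩).2) := by
      intro x c hx
      subst hx
      rfl
    intro x y hxy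
    have hc : G.connectedComponentMk x = G.connectedComponentMk y := by
      have := congrArg (fun p => p.1.1) hxy
      exact this
    rw [key x _ hc, key y _ rfl] at hxy
    simp only [Prod.mk.injEq] at hxy
    have e1 : (f (G.connectedComponentMk y) ⟨x, hc⟩).1 = (f (G.connectedComponentMk y) ⟨y, rfl⟩).1 :=
      hsig _ hxy.1
    have := h1 _ (Prod.ext e1 hxy.2)
    exact congrArg Subtype.val this
  · intro v; exact h2 _ _
  · have key : ∀ (x : V) (c : G.ConnectedComponent) (hx : G.connectedComponentMk x = c),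
        g x = (⟨c, (f c ⟨x, hx⟩).1⟩, (f c ⟨x, hx⟩).2) := by
      intro x c hx
      subst hx
      rfl
    intro x y hxy
    have hc : G.connectedComponentMk x = G.connectedComponentMk y :=
      SimpleGraph.ConnectedComponent.sound hxy.reachable
    rw [key x _ hc, key y _ rfl]
    have hadj : (G.induce (G.connectedComponentMk y).supp).Adj ⟨x, hc⟩ ⟨y, rfl⟩ := hxy
    obtain ⟨ha, hb⟩ := h3 _ _ _ hadj
    refine ⟨ha, ?_⟩
    rcases hb with hb | hb | hb
    · left; simp only; rw [hb]
    · right; left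
      simp only [Finset.mem_map]
      exact ⟨_, hb, rfl⟩
    · right; right
      simp only [Finset.mem_map]
      exact ⟨_, hb, rfl⟩
  · intro y; rw [Finset.card_map]; exact h4 _ _
  · rintro y z hz
    simp only [Finset.mem_map] at hz
    obtain ⟨w, hw, rfl⟩ := hz
    exact h5 _ _ _ hw
  · rintro y z hz w hw hzw
    simp only [Finset.mem_map] at hz hw
    obtain ⟨z', hz', rfl⟩ := hz
    obtain ⟨w', hw', rfl⟩ := hw
    have hne : z' ≠ w' := fun h => hzw (by rw [h])
    rcases h6 _ _ _ hz' _ hw' hne with h | h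
    · left
      simp only [Finset.mem_map]
      exact ⟨_, h, rfl⟩
    · right
      simp only [Finset.mem_map]
      exact ⟨_, h, rfl⟩

/-- conclusion for a graph: embedding in `H ⊠ P` -/
theorem embeds_of_goodOut {V : Type} (G : SimpleGraph V) (M : ℕ) (hC : CertStatement)
    (h : GoodOut G M) :
    ∃ (W : Type) (_ : Finite W) (H : SimpleGraph W), TreewidthLE H 110 ∧
      Embeds G (StrongProd H (SimpleGraph.pathGraph (M + 1))) := by
  obtain ⟨W, hW, f, N, rk, h1, h2, h3, h4, h5, h6⟩ := h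
  let H : SimpleGraph W :=
    { Adj := fun x y => x ≠ y ∧ (x ∈ N y ∨ y ∈ N x)
      symm := ⟨fun x y h => ⟨h.1.symm, h.2.symm⟩⟩
      loopless := ⟨fun x h => h.1 rfl⟩ }
  refine ⟨W, hW, H, hC W N rk 110 h4 h5 h6 H (fun x y h => h.2), ?_⟩
  refine ⟨fun v => ((f v).1, ⟨(f v).2, Nat.lt_succ_of_le (h2 v)⟩), ?_, ?_⟩
  · intro x y hxy
    simp only [Prod.mk.injEq, Fin.mk.injEq] at hxy
    exact h1 (Prod.ext hxy.1 hxy.2)
  · intro x y hxy
    refine ⟨?_, ?_, ?_⟩
    · intro he
      simp only [Prod.mk.injEq, Fin.mk.injEq] at he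
      exact hxy.ne (h1 (Prod.ext he.1 he.2))
    · rcases (h3 x y hxy).2 with h | h | h
      · exact Or.inl h
      · by_cases he : (f x).1 = (f y).1
        · exact Or.inl he
        · exact Or.inr ⟨he, Or.inl h⟩
      · by_cases he : (f x).1 = (f y).1
        · exact Or.inl he
        · exact Or.inr ⟨he, Or.inr h⟩
    · have ha := (h3 x y hxy).1
      have hb := (h3 y x hxy.symm).1
      by_cases he : (f x).2 = (f y).2
      · left
        exact Fin.ext he
      · right
        rw [SimpleGraph.pathGraph_adj]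
        simp only
        omega

/-- treewidth of induced subgraphs -/
theorem tw_induce {V : Type} (G : SimpleGraph V) (k : ℕ) (s : Set V) (h : TreewidthLE G k) :
    TreewidthLE (G.induce s) k := by
  classical
  obtain ⟨I, hI, T, bag, hT, h1, h2, h3, h4⟩ := h
  refine ⟨I, hI, T, fun i => (bag i).subtype (· ∈ s), hT, ?_, ?_, ?_, ?_⟩
  · intro v
    obtain ⟨i, hi⟩ := h1 v.1
    exact ⟨i, by simpa using hi⟩
  · intro u v huv
    obtain ⟨i, hi, hj⟩ := h2 u.1 v.1 huv
    exact ⟨i, by simpa using hi, by simpa using hj⟩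
  · intro v
    have : {i | v ∈ (bag i).subtype (· ∈ s)} = {i | v.1 ∈ bag i} := by
      ext i; simp
    rw [this]
    exact h3 v.1
  · intro i
    calc ((bag i).subtype (· ∈ s)).card = ((bag i).filter (· ∈ s)).card := by
          rw [← Finset.card_map (Function.Embedding.subtype _), Finset.subtype_map]
      _ ≤ (bag i).card := Finset.card_filter_le _ _
      _ ≤ k + 1 := h4 i

theorem walk_pull {V U : Type} {G : SimpleGraph V} {K : SimpleGraph U} (ι : V → U)
    (hι : Function.Injective ι) (hadj : ∀ x y, G.Adj x y ↔ K.Adj (ι x) (ι y)) :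
    ∀ {x' y' : U} (p : K.Walk x' y'), (∀ v ∈ p.support, v ∈ Set.range ι) →
      ∀ x y, ι x = x' → ι y = y' → ∃ q : G.Walk x y, ∀ v ∈ q.support, ι v ∈ p.support := by
  intro x' y' p
  induction p with
  | nil =>
    intro _ x y hx hy
    have : x = y := hι (hx.trans hy.symm)
    subst this
    exact ⟨SimpleGraph.Walk.nil, by intro v hv; simp at hv; subst hv; simp [hx]⟩
  | @cons a b c hab p ih =>
    intro hs x y hx hy
    have hb : b ∈ Set.range ι := hs b (by simp)
    obtain ⟨z, hz⟩ := hb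
    obtain ⟨q, hq⟩ := ih (fun v hv => hs v (by simp [hv])) z y hz hy
    have hxz : G.Adj x z := by
      rw [hadj, hx, hz]; exact hab
    refine ⟨SimpleGraph.Walk.cons hxz q, ?_⟩
    intro v hv
    rw [SimpleGraph.Walk.support_cons, List.mem_cons] at hv
    rw [SimpleGraph.Walk.support_cons, List.mem_cons]
    rcases hv with hv | hv
    · left; rw [hv, hx]
    · right; exact hq v hv

theorem sepProp_of_tw {V : Type} [Finite V] (G : SimpleGraph V) (k : ℕ) (hT : TreeSepStatement)
    (htw : TreewidthLE G k) (S : TriSphere) (Φ : Set S.V) (ι : V → S.V)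
    (hι : Function.Injective ι) (hΦ : ∀ x, x ∈ Φ ↔ x ∉ Set.range ι)
    (hadj : ∀ x y, G.Adj x y ↔ (S.grE Set.univ).Adj (ι x) (ι y)) : SepProp S Φ k := by
  intro D hne hD hconn hdisj
  have hr : ∀ x, x ∉ Φ → x ∈ Set.range ι := by
    intro x hx
    by_contra h
    exact hx ((hΦ x).2 h)
  obtain ⟨A, X, hX, hAX, hA, i, j, hi, hj⟩ := hT V G k htw (fun i => ι ⁻¹' (D i)) (by
    intro i
    obtain ⟨x, hx⟩ := hne i
    obtain ⟨y, rfl⟩ := hr x (hD i x hx)
    exact ⟨y, hx⟩) (by
    intro i x hx y hy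
    obtain ⟨p, hp⟩ := hconn i _ hx _ hy
    obtain ⟨q, hq⟩ := walk_pull ι hι hadj p (fun v hv => hr v (hD i v (hp v hv))) x y rfl rfl
    exact ⟨q, fun v hv => hp _ (hq v hv)⟩) (by
    intro i j hij
    exact (hdisj i j hij).preimage ι)
  refine ⟨ι '' A, ι '' X, ?_, ?_, ?_, ?_, ?_, i, j, ?_, ?_⟩
  · exact (Set.ncard_image_le (Set.toFinite X)).trans hX
  · exact (Set.disjoint_image_iff hι).2 hAX
  · rintro _ ⟨x, -, rfl⟩ hx
    exact (hΦ _).1 hx ⟨x, rfl⟩
  · rintro _ ⟨x, -, rfl⟩ hx
    exact (hΦ _).1 hx ⟨x, rfl⟩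
  · rintro _ ⟨x, hx, rfl⟩ y hy hxy
    obtain ⟨z, rfl⟩ := hr y hy
    rw [← hadj] at hxy
    rcases hA x hx z hxy with h | h
    · exact Or.inl ⟨z, h, rfl⟩
    · exact Or.inr ⟨z, h, rfl⟩
  · intro x hx
    obtain ⟨y, rfl⟩ := hr x (hD i x hx)
    exact ⟨y, hi hx, rfl⟩
  · rw [Set.disjoint_left]
    intro x hx hx'
    obtain ⟨y, rfl⟩ := hr x (hD j x hx)
    rw [← Set.image_union] at hx'
    obtain ⟨z, hz, hzy⟩ := hx'
    have := hι hzy
    subst this
    exact (Set.disjoint_left.1 hj) hx hz

/-- everything together -/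
theorem final (hSep : ∀ S, SepStatement S) (hRF : ∀ S, RegionFacts S)
    (hCS : ∀ S, ChordSplitStatement S) (hLev : LevelThm) (hBfs : BfsStatement)
    (hFold : FoldStatement) (hChord : ChordThm) (hSel : ∀ S, SelectStatement S)
    (hRec : RecStatement) (hCert : CertStatement) (hSC : ShortCountStatement)
    (hST : ShortTwStatement) (hTS : TreeSepStatement) (hStell : StellStatement) :
    (∀ (V : Type) [Finite V] (G : SimpleGraph V), IsPlanar G →
      ∀ k, TreewidthLE G k →
        ∃ (W : Type) (_ : Finite W) (H : SimpleGraph W) (m : ℕ), TreewidthLE H 110 ∧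
          Embeds G (StrongProd H (SimpleGraph.pathGraph m)) ∧ m ≤ 5 * (k + 1)) ∧
    (∀ (V : Type) [Finite V] (G : SimpleGraph V), IsPlanar G →
        ∃ (W : Type) (_ : Finite W) (H : SimpleGraph W) (m : ℕ), TreewidthLE H 110 ∧
          Embeds G (StrongProd H (SimpleGraph.pathGraph m)) ∧
          (m : ℝ) ≤ 6 * Real.sqrt (Nat.card V)) := by
  have hcert : ∀ (S : TriSphere) (M : ℕ), 2 ≤ M → Short S M → CertOut S M := by
    intro S M hM hs
    exact hRec S M hM (hRF S) (hCS S) (hChord S M hM (hRF S) hBfs hFold hs) (hSel S)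
  constructor
  · intro V _ G hG k hk
    have hgood : GoodOut G (4 * (k + 1)) := by
      apply goodOut_components
      intro c
      rcases hG c with h | h
      · exact goodOut_single _ h _
      · have hc : (G.induce c.supp).Connected := c.connected_toSimpleGraph
        obtain ⟨S, Φ, ι, h1, h2, h3, h4, h5⟩ := hStell _ (G.induce c.supp) hc h
        refine goodOut_of_cert _ S _ ι h1 (fun x y => (h3 x y).1) ?_
        apply hcert S _ (by omega)
        exact hST S Φ k _ (hRF S) hBfs (hSep S) (hLev S (hSep S) (hRF S)) h4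
          (sepProp_of_tw _ k hTS (tw_induce G k c.supp hk) S Φ ι h1 h2 h3) le_rfl
    obtain ⟨W, hW, H, hH, he⟩ := embeds_of_goodOut G _ hCert hgood
    exact ⟨W, hW, H, _, hH, he, by omega⟩
  · intro V _ G hG
    rcases Nat.eq_zero_or_pos (Nat.card V) with hn | hn
    · have hem : IsEmpty V := by
        rcases Nat.card_eq_zero.1 hn with h | h
        · exact h
        · exact absurd ‹Finite V› (not_finite_iff_infinite.2 h)
      refine ⟨Empty, inferInstance, ⊥, 0, ?_, ⟨fun v => (hem.false v).elim, ?_, ?_⟩, by simp⟩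
      · exact hCert Empty (fun _ => ∅) (fun _ => 0) 110 (fun y => y.elim) (fun y => y.elim)
          (fun y => y.elim) ⊥ (fun x => x.elim)
      · intro x; exact (hem.false x).elim
      · intro x; exact (hem.false x).elim
    · set n := Nat.card V with hndef
      set M := Nat.sqrt (6 * n) + 1 with hMdef
      have hM1 : 6 * n ≤ M * M := by
        have := Nat.lt_succ_sqrt (6 * n)
        exact this.le
      have hM2 : 2 ≤ M := by
        have : 1 ≤ Nat.sqrt (6 * n) := by
          rw [Nat.le_sqrt]; omega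
        omega
      have hgood : GoodOut G M := by
        apply goodOut_components
        intro c
        rcases hG c with h | h
        · exact goodOut_single _ h _
        · have hc : (G.induce c.supp).Connected := c.connected_toSimpleGraph
          obtain ⟨S, Φ, ι, h1, h2, h3, h4, h5⟩ := hStell _ (G.induce c.supp) hc h
          refine goodOut_of_cert _ S _ ι h1 (fun x y => (h3 x y).1) ?_
          apply hcert S _ hM2
          refine hSC S M (hRF S) hBfs (hLev S (hSep S) (hRF S)) hM2 ?_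
          have h6 : Nat.card c.supp ≤ n := by
            exact Finite.card_subtype_le _
          calc 2 * Nat.card S.V ≤ 2 * (3 * Nat.card c.supp) := by
                exact Nat.mul_le_mul_left 2 h5
            _ ≤ 6 * n := by omega
            _ ≤ M * M := hM1
      obtain ⟨W, hW, H, hH, he⟩ := embeds_of_goodOut G _ hCert hgood
      refine ⟨W, hW, H, M + 1, hH, he, ?_⟩
      have hs : ((Nat.sqrt (6 * n) : ℕ) : ℝ) ≤ Real.sqrt (6 * n) := by
        apply Real.le_sqrt_of_sq_le
        have := Nat.sqrt_le' (6 * n)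
        exact_mod_cast this
      have hs1 : (1 : ℝ) ≤ Real.sqrt n := by
        rw [Real.one_le_sqrt]
        exact_mod_cast hn
      have hs6 : Real.sqrt (6 * n) ≤ 3 * Real.sqrt n := by
        rw [Real.sqrt_mul (by norm_num)]
        have : Real.sqrt 6 ≤ 3 := by
          rw [Real.sqrt_le_left (by norm_num)]; norm_num
        exact mul_le_mul_of_nonneg_right this (Real.sqrt_nonneg _)
      push_cast [hMdef]
      nlinarith

end H91PP
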