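import Mathlib

/-!
# Graph notions used in the final statements of MP_9863c1_co
-/

namespace H91PP

/-- `G` has a tree decomposition with all bags of size at most `k + 1`,
i.e. the treewidth of `G` is at most `k`. -/
def TreewidthLE {V : Type} (G : SimpleGraph V) (k : ℕ) : Prop :=
  ∃ (I : Type) (_ : Finite I) (T : SimpleGraph I) (bag : I → Finset V),
    T.IsTree ∧
    (∀ v, ∃ i, v ∈ bag i) ∧
    (∀ u v, G.Adj u v → ∃ i, u ∈ bag i ∧ v ∈ bag i) ∧
    (∀ v, (T.induce {i | v ∈ bag i}).Preconnected) ∧
    (∀ i, (bag i).card ≤ k + 1)

/-- The strong product of two graphs. -/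
def StrongProd {W U : Type} (H : SimpleGraph W) (P : SimpleGraph U) : SimpleGraph (W × U) where
  Adj x y := x ≠ y ∧ (x.1 = y.1 ∨ H.Adj x.1 y.1) ∧ (x.2 = y.2 ∨ P.Adj x.2 y.2)
  symm := ⟨by
    intro x y h
    refine ⟨h.1.symm, ?_, ?_⟩
    · rcases h.2.1 with h1 | h1
      · exact Or.inl h1.symm
      · exact Or.inr (H.symm.symm _ _ h1)
    · rcases h.2.2 with h1 | h1
      · exact Or.inl h1.symm
      · exact Or.inr (P.symm.symm _ _ h1)⟩
  loopless := ⟨fun x h => h.1 rfl⟩

/-- `G` is isomorphic to a subgraph of `K`. -/
def Embeds {V U : Type} (G : SimpleGraph V) (K : SimpleGraph U) : Prop :=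
  ∃ f : V → U, Function.Injective f ∧ ∀ x y, G.Adj x y → K.Adj (f x) (f y)

/-- The face permutation of a rotation system `σ` (a permutation of the darts, i.e. of the
ordered pairs of adjacent vertices): from the dart `u → v` go to the dart that follows
`v → u` in the rotation at `v`. -/
def facePerm {V : Type} (G : SimpleGraph V) (σ : Equiv.Perm G.Dart) : Equiv.Perm G.Dart :=
  (Function.Involutive.toPerm SimpleGraph.Dart.symm SimpleGraph.Dart.symm_involutive).trans σ

/-- The faces of a rotation system: orbits of the face permutation. -/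
def Faces {V : Type} (G : SimpleGraph V) (σ : Equiv.Perm G.Dart) : Type :=
  Quotient (Equiv.Perm.SameCycle.setoid (facePerm G σ))

/-- `G` has a rotation system (a cyclic ordering, at every vertex, of the darts leaving it) with
Euler characteristic `#vertices - #edges + #faces = 2`.  For a connected graph with at least one
edge this is the usual combinatorial definition of planarity. -/
def HasPlaneRotation {V : Type} (G : SimpleGraph V) : Prop :=
  ∃ σ : Equiv.Perm G.Dart,
    (∀ d, (σ d).fst = d.fst) ∧
    (∀ d d' : G.Dart, d.fst = d'.fst → σ.SameCycle d d') ∧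
    Nat.card V + Nat.card (Faces G σ) = Nat.card G.edgeSet + 2

/-- Planarity of a finite graph: every connected component is a single vertex or has a rotation
system with Euler characteristic `2`. -/
def IsPlanar {V : Type} (G : SimpleGraph V) : Prop :=
  ∀ c : G.ConnectedComponent,
    Nat.card c.supp = 1 ∨ HasPlaneRotation (G.induce c.supp)

end H91PP
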