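import Pool.Agent.Helper91_PP.RecAux

namespace H91PP

open TriSphere

open Classical in
theorem rec_main (S : TriSphere) (M : ℕ) (hRF : RegionFacts S) (hCS : ChordSplitStatement S)
    (hCh : ChordStatement S M) (hSel : SelectStatement S) :
    ∀ (n : ℕ) (R : Set S.T) (L : List (S.V × S.E)) (u : S.V), R.ncard ≤ n →
    S.IsRegion R L u →
    ∀ (ℓ : S.V → ℕ) (lab : S.V → S.V) (N : S.V → Finset S.V) (rk : S.V → ℕ) (ρ : ℕ),
    (∀ v ∈ L.map Prod.fst, ℓ v ≤ M) →
    (∀ x ∈ L.map Prod.fst, ∀ y ∈ L.map Prod.fst, ∀ p : (S.gr R).Walk x y,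
      ℓ y ≤ ℓ x + p.length) →
    chg lab (L.map Prod.fst ++ [u]) ≤ 78 →
    (∀ x ∈ L.map Prod.fst, ∀ y ∈ L.map Prod.fst, lab x ≠ lab y →
      lab x ∈ N (lab y) ∨ lab y ∈ N (lab x)) →
    (∀ x ∈ L.map Prod.fst, lab x ∉ Int S R L) →
    (∀ x ∈ L.map Prod.fst, rk (lab x) ≤ ρ) →
    ∃ (ℓ' : S.V → ℕ) (lab' : S.V → S.V) (N' : S.V → Finset S.V) (rk' : S.V → ℕ),
      (∀ v, v ∉ Int S R L → ℓ' v = ℓ v ∧ lab' v = lab v ∧ N' v = N v ∧ rk' v = rk v) ∧
      (∀ v ∈ Int S R L, ℓ' v ≤ M ∧ lab' v ∈ Int S R L) ∧
      (∀ x y, (S.gr R).Adj x y → ℓ' x ≤ ℓ' y + 1) ∧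
      (∀ x ∈ Int S R L, ∀ y ∈ Int S R L, lab' x = lab' y → ℓ' x = ℓ' y → x = y) ∧
      (∀ x y, (S.gr R).Adj x y →
        lab' x = lab' y ∨ lab' x ∈ N' (lab' y) ∨ lab' y ∈ N' (lab' x)) ∧
      (∀ y ∈ Int S R L, (N' y).card ≤ 110 ∧ (∀ z ∈ N' y, rk' z < rk' y) ∧
        (∀ z ∈ N' y, ∀ w ∈ N' y, z ≠ w → z ∈ N' w ∨ w ∈ N' z) ∧
        (∀ z ∈ N' y, z ∈ Int S R L ∨ ∃ x ∈ L.map Prod.fst, z = lab x)) := by
  intro n
  induction n with
  | zero =>
    intro R L u hn hR
    exfalso
    have h0 : R = ∅ := by
      have := S.fT
      rw [← Set.ncard_eq_zero (Set.toFinite R)]; omega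
    obtain ⟨p, hp⟩ := List.exists_mem_of_ne_nil L hR.ne
    have := (hR.bd_eq p.2).2 (List.mem_map_of_mem hp)
    rw [h0] at this
    exact this ⟨fun h => h.elim, fun h => h.elim⟩
  | succ n ih =>
    intro R L u hn hR ℓ lab N rk ρ hℓM hLip hchg hcl hlabI hρ
    have hfT := S.fT
    have hfV := S.fV
    by_cases hint : ∀ v ∈ S.VR R, v ∈ L.map Prod.fst
    · -- no interior vertices
      have hI : Int S R L = ∅ := by
        ext v
        simp only [Int, Set.mem_ofPred_eq, Set.mem_empty_iff_false, iff_false, not_and, not_not]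
        exact hint v
      refine ⟨ℓ, lab, N, rk, fun v _ => ⟨rfl, rfl, rfl, rfl⟩, ?_, ?_, ?_, ?_, ?_⟩
      · rw [hI]; intro v hv; exact hv.elim
      · intro x y hxy
        obtain ⟨hx, hy⟩ := gr_adj_VR hxy
        have := hLip y (hint y hy) x (hint x hx) (SimpleGraph.Walk.cons hxy.symm .nil)
        simpa using this
      · rw [hI]; intro v hv; exact hv.elim
      · intro x y hxy
        obtain ⟨hx, hy⟩ := gr_adj_VR hxy
        by_cases he : lab x = lab y
        · exact Or.inl he
        · exact Or.inr (hcl x (hint x hx) y (hint y hy) he)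
      · rw [hI]; intro v hv; exact hv.elim
    · -- choose a chord
      have hsing : ∀ t, R ≠ {t} := by
        intro t ht
        apply hint
        intro v hv
        obtain ⟨t', ht', i, hi⟩ := hv
        rw [ht, Set.mem_singleton_iff] at ht'
        subst ht'
        -- side i of t' is a boundary edge
        have hb : S.s t' i ∈ S.bd R := by
          intro hiff
          rw [ht] at hiff
          simp only [Set.mem_singleton_iff] at hiff
          rcases S.s_lr t' i with h | h
          · exact S.lr _ (h.trans (hiff.1 h).symm)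
          · exact S.lr _ ((hiff.2 h).trans h.symm)
        rw [hR.bd_eq] at hb
        -- the ends of a boundary edge are boundary vertices
        have hends : ∀ {L : List (S.V × S.E)} {u w : S.V}, S.IsW u L w → ∀ e ∈ L.map Prod.snd,
            ∀ x, (S.a e = x ∨ S.b e = x) → x ∈ L.map Prod.fst ∨ x = w := by
          intro L
          induction L with
          | nil => intro u w _ e he; simp at he
          | cons p L ihL =>
            intro u w hw e he x hx
            obtain ⟨_, v', hj, hw'⟩ := hw
            simp only [List.map_cons, List.mem_cons] at he ⊢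
            rcases he with rfl | he
            · have hx' : x = p.1 ∨ x = v' := by
                rcases hj with ⟨h1, h2⟩ | ⟨h1, h2⟩ <;> rcases hx with h | h
                · exact Or.inl (h.symm.trans h1)
                · exact Or.inr (h.symm.trans h2)
                · exact Or.inr (h.symm.trans h1)
                · exact Or.inl (h.symm.trans h2)
              rcases hx' with rfl | rfl
              · exact Or.inl (Or.inl rfl)
              · cases L with
                | nil => exact Or.inr hw'
                | cons q L => exact Or.inl (Or.inr (by simp [hw'.1]))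
            · rcases ihL hw' e he x hx with h | h
              · exact Or.inl (Or.inr h)
              · exact Or.inr h
        have hv' : S.a (S.s t' i) = v ∨ S.b (S.s t' i) = v := by
          rcases S.s_ends t' i with h | h
          · exact Or.inl (h.1.trans hi)
          · exact Or.inr (h.2.trans hi)
        rcases hends hR.walk _ hb v hv' with h | h
        · exact h
        · rw [h]
          cases L with
          | nil => exact absurd rfl hR.ne
          | cons q L => simp [hR.walk.1]
      obtain ⟨rt, hrt1, hrt2, hch⟩ := hCh R L u hR ℓ hℓM hLip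
      obtain ⟨e, x1, x2, L1, L2, he, heL, hJ, hne, hR', hW1, hW2, hV, hE, hsum, hbal⟩ :=
        hSel R L u hR hsing rt hrt1 hrt2 lab
      obtain ⟨Q, ℓ0, κ, hQ, hℓ0F, hℓ0M, hℓ0L, hκ, hκinj, hκchg⟩ :=
        hch e x1 x2 he heL hJ hne
      set b1 := rt x1 with hb1
      set b2 := rt x2 with hb2
      -- the chord with respect to the rotated boundary
      have hQ2 : S.IsChord R (L1 ++ L2) Q b1 b2 := by
        refine ⟨hQ.walk, hQ.ne, hQ.b12, (hV _).2 hQ.b1F, (hV _).2 hQ.b2F, hQ.nd, ?_, ?_⟩
        · intro v hv
          rcases hQ.int v hv with h | h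
          · exact Or.inl h
          · exact Or.inr (fun h' => h ((hV v).1 h'))
        · intro e he
          exact ⟨(hQ.ed e he).1, fun h' => (hQ.ed e he).2 ((hE e).1 h')⟩
      obtain ⟨Q', R1, R2, hWQ', hQ', hU, hd, hne1, hne2, hR1, hR2⟩ :=
        hCS R L1 L2 Q b1 b2 hR' hW1 hW2 hQ2
      have SF := splitFacts S hRF R R1 R2 L1 L2 Q Q' b1 b2 hR' hQ2 hQ' hU hd hR1 hR2
      set QI := (Q.map Prod.fst).tail with hQI
      have hR1s : R1 ⊆ R := hU ▸ Set.subset_union_left
      have hR2s : R2 ⊆ R := hU ▸ Set.subset_union_right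
      have hIntEq : Int S R (L1 ++ L2) = Int S R L := by
        ext v; simp only [Int, Set.mem_ofPred_eq, hV]
      -- sizes
      have hc1 : R1.ncard ≤ n := by
        have h1 : R1.ncard + R2.ncard = R.ncard := by
          rw [← hU]; exact (Set.ncard_union_eq hd (Set.toFinite _) (Set.toFinite _)).symm
        have h2 : 0 < R2.ncard := (Set.ncard_pos (Set.toFinite _)).2 hne2
        omega
      have hc2 : R2.ncard ≤ n := by
        have h1 : R1.ncard + R2.ncard = R.ncard := by
          rw [← hU]; exact (Set.ncard_union_eq hd (Set.toFinite _) (Set.toFinite _)).symm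
        have h2 : 0 < R1.ncard := (Set.ncard_pos (Set.toFinite _)).2 hne1
        omega
      -- new labels
      let rep : ℕ → S.V := fun j => if h : ∃ x ∈ QI, κ x = j then h.choose else b1
      have hrep : ∀ x ∈ QI, rep (κ x) ∈ QI ∧ κ (rep (κ x)) = κ x := by
        intro x hx
        have h : ∃ y ∈ QI, κ y = κ x := ⟨x, hx, rfl⟩
        have hre : rep (κ x) = h.choose := dif_pos h
        rw [hre]
        exact h.choose_spec
      let LF : Finset S.V := (L.map Prod.fst).toFinset.image lab
      have hLF : ∀ z, z ∈ LF ↔ ∃ x ∈ L.map Prod.fst, lab x = z := by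
        intro z
        simp only [LF, Finset.mem_image, List.mem_toFinset]
      let RP : ℕ → Finset S.V := fun j => ((Finset.range j).image rep).filter (fun z => z ∈ QI ∧ κ z < j ∧ rep (κ z) = z)
      have hRP : ∀ j z, z ∈ RP j ↔ z ∈ QI ∧ κ z < j ∧ rep (κ z) = z := by
        intro j z
        simp only [RP, Finset.mem_filter, Finset.mem_image, Finset.mem_range]
        constructor
        · exact fun h => h.2
        · exact fun h => ⟨⟨κ z, h.2.1, h.2.2⟩, h⟩
      have hRPc : ∀ j, (RP j).card ≤ j := by
        intro j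
        calc (RP j).card ≤ ((Finset.range j).image rep).card := Finset.card_filter_le _ _
          _ ≤ (Finset.range j).card := Finset.card_image_le
          _ = j := Finset.card_range j
      let lab0 : S.V → S.V := fun v => if v ∈ QI then rep (κ v) else lab v
      let N0 : S.V → Finset S.V := fun v => if v ∈ QI then LF ∪ RP (κ v) else N v
      let rk0 : S.V → ℕ := fun v => if v ∈ QI then ρ + 1 + κ v else rk v
      let ℓ1 : S.V → ℕ := fun v => if v ∈ QI then ℓ0 v else ℓ v
      have hQIF : ∀ v ∈ QI, v ∉ L.map Prod.fst := by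
        intro v hv h
        exact (SF.Q v hv).2.2.2 ((hV v).2 h)
      have hLFQ : ∀ z ∈ LF, z ∉ Int S R L := by
        intro z hz
        obtain ⟨x, hx, rfl⟩ := (hLF z).1 hz
        exact hlabI x hx
      have hQIint : ∀ v ∈ QI, v ∈ Int S R L := by
        intro v hv
        rw [← hIntEq]; exact (SF.Q v hv).2.2
      have hLFQ' : ∀ z ∈ LF, z ∉ QI := fun z hz h => hLFQ z hz (hQIint z h)
      -- boundary vertices of the halves
      have hF1 : ∀ v ∈ (L1 ++ Q').map Prod.fst, v ∈ L.map Prod.fst ∨ v ∈ QI := by
        intro v hv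
        rcases SF.F1 v hv with h | h
        · exact Or.inl ((hV v).1 h)
        · exact Or.inr h
      have hF2 : ∀ v ∈ (L2 ++ Q).map Prod.fst, v ∈ L.map Prod.fst ∨ v ∈ QI := by
        intro v hv
        rcases SF.F2 v hv with h | h
        · exact Or.inl ((hV v).1 h)
        · exact Or.inr h
      have hℓ1eq : ∀ v, v ∈ L.map Prod.fst ∨ v ∈ QI → ℓ1 v = ℓ0 v := by
        intro v hv
        by_cases h : v ∈ QI
        · simp [ℓ1, h]
        · rcases hv with hv | hv
          · simp [ℓ1, h, hℓ0F v hv]
          · exact absurd hv h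
      have hlab0L : ∀ v ∈ L.map Prod.fst, lab0 v = lab v := by
        intro v hv
        have : v ∉ QI := fun h => hQIF v h hv
        simp [lab0, this]
      have hlab0Q : ∀ v ∈ QI, lab0 v = rep (κ v) := by
        intro v hv; simp [lab0, hv]
      -- labels of boundary vertices
      have hlabel : ∀ v, v ∈ L.map Prod.fst ∨ v ∈ QI →
          lab0 v ∈ LF ∨ (lab0 v ∈ QI ∧ rep (κ (lab0 v)) = lab0 v) := by
        intro v hv
        rcases hv with hv | hv
        · left; rw [hlab0L v hv, hLF]; exact ⟨v, hv, rfl⟩
        · right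
          rw [hlab0Q v hv]
          obtain ⟨h1, h2⟩ := hrep v hv
          exact ⟨h1, by rw [h2]⟩
      have hcl0 : ∀ z w, (z ∈ LF ∨ (z ∈ QI ∧ rep (κ z) = z)) →
          (w ∈ LF ∨ (w ∈ QI ∧ rep (κ w) = w)) → z ≠ w → z ∈ N0 w ∨ w ∈ N0 z := by
        intro z w hz hw hzw
        rcases hz with hz | hz <;> rcases hw with hw | hw
        · obtain ⟨x, hx, rfl⟩ := (hLF z).1 hz
          obtain ⟨y, hy, rfl⟩ := (hLF w).1 hw
          have h1 : N0 (lab x) = N (lab x) := by simp [N0, hLFQ' _ hz]
          have h2 : N0 (lab y) = N (lab y) := by simp [N0, hLFQ' _ hw]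
          rw [h1, h2]
          exact hcl x hx y hy hzw
        · left
          have : N0 w = LF ∪ RP (κ w) := by simp [N0, hw.1]
          rw [this]; exact Finset.mem_union_left _ hz
        · right
          have : N0 z = LF ∪ RP (κ z) := by simp [N0, hz.1]
          rw [this]; exact Finset.mem_union_left _ hw
        · have h1 : N0 z = LF ∪ RP (κ z) := by simp [N0, hz.1]
          have h2 : N0 w = LF ∪ RP (κ w) := by simp [N0, hw.1]
          rcases lt_trichotomy (κ z) (κ w) with h | h | h
          · left; rw [h2]; exact Finset.mem_union_right _ ((hRP _ _).2 ⟨hz.1, h, hz.2⟩)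
          · exfalso; apply hzw; rw [← hz.2, ← hw.2, h]
          · right; rw [h1]; exact Finset.mem_union_right _ ((hRP _ _).2 ⟨hw.1, h, hw.2⟩)
      -- Lipschitz property along walks
      have hwalk : ∀ (R' : Set S.T), R' ⊆ R → ∀ {x y : S.V} (p : (S.gr R').Walk x y),
          ℓ0 y ≤ ℓ0 x + p.length := by
        intro R' hR' x y p
        induction p with
        | nil => simp
        | cons h p ihp =>
          have h' := gr_mono hR' h
          have := hℓ0L _ _ h' (gr_adj_VR h').1
          rw [SimpleGraph.Walk.length_cons]; omega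
      -- change counts
      have hQchg : chg lab0 (Q.map Prod.fst ++ [b2]) ≤ 25 := by
        have hQe : Q.map Prod.fst = b1 :: QI := by
          cases hq : Q with
          | nil => exact absurd hq hQ.ne
          | cons p Qt =>
            have h1 := hQ.walk
            rw [hq] at h1
            simp only [hQI, hq, List.map_cons, List.tail_cons]
            rw [h1.1]
        rw [hQe]
        have h1 := chg_cons_le lab0 (QI ++ [b2]) b1
        have h2 := (chg_append_singleton_le lab0 QI b2).2
        have h3 : chg lab0 QI ≤ chg κ QI := by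
          apply chg_comp_le
          intro x hx y hy hxy
          rw [hlab0Q x hx, hlab0Q y hy, hxy]
        simp only [List.cons_append]
        omega
      have hbal1 : chg lab (L1.map Prod.fst ++ [b2]) ≤ 53 := by
        rcases hbal with h | h
        · omega
        · have := h.1; omega
      have hbal2 : chg lab (L2.map Prod.fst ++ [b1]) ≤ 53 := by
        rcases hbal with h | h
        · omega
        · have := h.2; omega
      have hL1F : ∀ v ∈ L1.map Prod.fst ++ [b2], v ∈ L.map Prod.fst := by
        intro v hv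
        rw [List.mem_append, List.mem_singleton] at hv
        rcases hv with hv | rfl
        · rw [← hV, List.map_append, List.mem_append]; exact Or.inl hv
        · exact hQ.b2F
      have hL2F : ∀ v ∈ L2.map Prod.fst ++ [b1], v ∈ L.map Prod.fst := by
        intro v hv
        rw [List.mem_append, List.mem_singleton] at hv
        rcases hv with hv | rfl
        · rw [← hV, List.map_append, List.mem_append]; exact Or.inr hv
        · exact hQ.b1F
      have hchg1 : chg lab0 ((L1 ++ Q').map Prod.fst ++ [b1]) ≤ 78 := by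
        have e1 : (L1 ++ Q').map Prod.fst ++ [b1] =
            L1.map Prod.fst ++ (b2 :: (Q.map Prod.fst).reverse) := by
          rw [List.map_append, List.append_assoc, hQ']; simp
        rw [e1, chg_glue]
        have e2 : b2 :: (Q.map Prod.fst).reverse = (Q.map Prod.fst ++ [b2]).reverse := by simp
        rw [e2, chg_reverse, chg_congr lab0 lab _ (fun v hv => hlab0L v (hL1F v hv))]
        omega
      have hchg2 : chg lab0 ((L2 ++ Q).map Prod.fst ++ [b2]) ≤ 78 := by
        have hQe : Q.map Prod.fst = b1 :: QI := by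
          cases hq : Q with
          | nil => exact absurd hq hQ.ne
          | cons p Qt =>
            have h1 := hQ.walk
            rw [hq] at h1
            simp only [hQI, hq, List.map_cons, List.tail_cons]
            rw [h1.1]
        have e1 : (L2 ++ Q).map Prod.fst ++ [b2] =
            L2.map Prod.fst ++ (b1 :: (QI ++ [b2])) := by
          rw [List.map_append, List.append_assoc, hQe]; simp
        rw [e1, chg_glue]
        have e2 : b1 :: (QI ++ [b2]) = Q.map Prod.fst ++ [b2] := by rw [hQe]; simp
        rw [e2, chg_congr lab0 lab _ (fun v hv => hlab0L v (hL2F v hv))]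
        omega
      -- first recursion
      obtain ⟨ℓ2, lab2, N2, rk2, g1, g2, g3, g4, g5, g6⟩ :=
        ih R1 (L1 ++ Q') b1 hc1 hR1 ℓ1 lab0 N0 rk0 (ρ + 24)
          (by
            intro v hv
            rw [hℓ1eq v (hF1 v hv)]; exact hℓ0M v)
          (by
            intro x hx y hy p
            rw [hℓ1eq x (hF1 x hx), hℓ1eq y (hF1 y hy)]
            exact hwalk R1 hR1s p)
          hchg1
          (by
            intro x hx y hy hxy
            exact hcl0 _ _ (hlabel x (hF1 x hx)) (hlabel y (hF1 y hy)) hxy)
          (by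
            intro x hx h
            rcases hlabel x (hF1 x hx) with h' | h'
            · exact hLFQ _ h' (by rw [← hIntEq]; exact SF.I1 _ h)
            · exact h.2 (SF.Q _ h'.1).1)
          (by
            intro x hx
            rcases hlabel x (hF1 x hx) with h' | h'
            · obtain ⟨y, hy, hyx⟩ := (hLF _).1 h'
              have : rk0 (lab0 x) = rk (lab0 x) := by simp [rk0, hLFQ' _ h']
              rw [this, ← hyx]
              have := hρ y hy; omega
            · have : rk0 (lab0 x) = ρ + 1 + κ (lab0 x) := by simp [rk0, h'.1]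
              rw [this]; have := hκ (lab0 x); omega)
      -- facts: on the boundary of the second half nothing changed
      have hout1 : ∀ v, v ∈ S.VR R2 → v ∉ Int S R1 (L1 ++ Q') := fun v hv h => SF.d1 v h hv
      have hF2out : ∀ v ∈ (L2 ++ Q).map Prod.fst, v ∉ Int S R1 (L1 ++ Q') := by
        intro v hv
        exact hout1 v (hRF.bdV _ _ _ hR2 v hv)
      have hlabout : ∀ z, (z ∈ LF ∨ (z ∈ QI ∧ rep (κ z) = z)) → z ∉ Int S R1 (L1 ++ Q') ∧
          z ∉ Int S R2 (L2 ++ Q) := by
        intro z hz
        rcases hz with hz | hz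
        · exact ⟨fun h => hLFQ z hz (by rw [← hIntEq]; exact SF.I1 _ h),
            fun h => hLFQ z hz (by rw [← hIntEq]; exact SF.I2 _ h)⟩
        · exact ⟨fun h => h.2 (SF.Q _ hz.1).1, fun h => h.2 (SF.Q _ hz.1).2.1⟩
      have hlab2F : ∀ v ∈ (L2 ++ Q).map Prod.fst, lab2 v = lab0 v :=
        fun v hv => (g1 v (hF2out v hv)).2.1
      obtain ⟨ℓ3, lab3, N3, rk3, k1, k2, k3, k4, k5, k6⟩ :=
        ih R2 (L2 ++ Q) b2 hc2 hR2 ℓ2 lab2 N2 rk2 (ρ + 24)
          (by
            intro v hv
            rw [(g1 v (hF2out v hv)).1, hℓ1eq v (hF2 v hv)]; exact hℓ0M v)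
          (by
            intro x hx y hy p
            rw [(g1 x (hF2out x hx)).1, (g1 y (hF2out y hy)).1,
              hℓ1eq x (hF2 x hx), hℓ1eq y (hF2 y hy)]
            exact hwalk R2 hR2s p)
          (by
            rw [chg_congr lab2 lab0]
            · exact hchg2
            · intro v hv
              rw [List.mem_append, List.mem_singleton] at hv
              rcases hv with hv | rfl
              · exact hlab2F v hv
              · apply hlab2F
                have hw := hR2.walk
                cases hq : (L2 ++ Q) with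
                | nil => exact absurd hq hR2.ne
                | cons p Qt =>
                  rw [hq] at hw
                  simp [hw.1])
          (by
            intro x hx y hy hxy
            rw [hlab2F x hx, hlab2F y hy] at hxy ⊢
            have hx' := hlabel x (hF2 x hx)
            have hy' := hlabel y (hF2 y hy)
            rw [(g1 _ (hlabout _ hx').1).2.2.1, (g1 _ (hlabout _ hy').1).2.2.1]
            exact hcl0 _ _ hx' hy' hxy)
          (by
            intro x hx
            rw [hlab2F x hx]
            exact (hlabout _ (hlabel x (hF2 x hx))).2)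
          (by
            intro x hx
            rw [hlab2F x hx]
            have hx' := hlabel x (hF2 x hx)
            rw [(g1 _ (hlabout _ hx').1).2.2.2]
            rcases hx' with h' | h'
            · obtain ⟨y, hy, hyx⟩ := (hLF _).1 h'
              have : rk0 (lab0 x) = rk (lab0 x) := by simp [rk0, hLFQ' _ h']
              rw [this, ← hyx]
              have := hρ y hy; omega
            · have : rk0 (lab0 x) = ρ + 1 + κ (lab0 x) := by simp [rk0, h'.1]
              rw [this]; have := hκ (lab0 x); omega)
      -- final values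
      have hout2 : ∀ v, v ∈ S.VR R1 → v ∉ Int S R2 (L2 ++ Q) := fun v hv h => SF.d2 v h hv
      have hQIout : ∀ v ∈ QI, v ∉ Int S R1 (L1 ++ Q') ∧ v ∉ Int S R2 (L2 ++ Q) := by
        intro v hv
        exact ⟨fun h => h.2 (SF.Q v hv).1, fun h => h.2 (SF.Q v hv).2.1⟩
      have hI1 : ∀ v ∈ Int S R1 (L1 ++ Q'), v ∈ Int S R L := by
        intro v hv; rw [← hIntEq]; exact SF.I1 v hv
      have hI2 : ∀ v ∈ Int S R2 (L2 ++ Q), v ∈ Int S R L := by
        intro v hv; rw [← hIntEq]; exact SF.I2 v hv
      have hI : ∀ v ∈ Int S R L, v ∈ Int S R1 (L1 ++ Q') ∨ v ∈ Int S R2 (L2 ++ Q) ∨ v ∈ QI := by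
        intro v hv; rw [← hIntEq] at hv; exact SF.I v hv
      have hvQ : ∀ v ∈ QI, ℓ3 v = ℓ0 v ∧ lab3 v = rep (κ v) ∧ N3 v = LF ∪ RP (κ v) ∧
          rk3 v = ρ + 1 + κ v := by
        intro v hv
        obtain ⟨h1, h2⟩ := hQIout v hv
        obtain ⟨e1, e2, e3, e4⟩ := k1 v h2
        obtain ⟨e5, e6, e7, e8⟩ := g1 v h1
        refine ⟨?_, ?_, ?_, ?_⟩
        · rw [e1, e5]; simp [ℓ1, hv]
        · rw [e2, e6]; simp [lab0, hv]
        · rw [e3, e7]; simp [N0, hv]
        · rw [e4, e8]; simp [rk0, hv]
      -- on labels of boundary vertices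
      have hzN : ∀ z, (z ∈ LF ∨ (z ∈ QI ∧ rep (κ z) = z)) → N3 z = N0 z ∧ rk3 z = rk0 z ∧
          N2 z = N0 z ∧ rk2 z = rk0 z := by
        intro z hz
        obtain ⟨h1, h2⟩ := hlabout z hz
        obtain ⟨e1, e2, e3, e4⟩ := k1 z h2
        obtain ⟨e5, e6, e7, e8⟩ := g1 z h1
        exact ⟨e3.trans e7, e4.trans e8, e7, e8⟩
      -- on vertices of the first half
      have hv1 : ∀ v ∈ S.VR R1, ℓ3 v = ℓ2 v ∧ lab3 v = lab2 v := by
        intro v hv
        obtain ⟨e1, e2, e3, e4⟩ := k1 v (hout2 v hv)
        exact ⟨e1, e2⟩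
      have hlab2mem : ∀ v ∈ S.VR R1, lab2 v ∈ Int S R1 (L1 ++ Q') ∨
          (lab2 v ∈ LF ∨ (lab2 v ∈ QI ∧ rep (κ (lab2 v)) = lab2 v)) := by
        intro v hv
        by_cases h : v ∈ Int S R1 (L1 ++ Q')
        · exact Or.inl (g2 v h).2
        · right
          have hvF : v ∈ (L1 ++ Q').map Prod.fst := by
            by_contra h'
            exact h ⟨hv, h'⟩
          rw [(g1 v h).2.1]
          exact hlabel v (hF1 v hvF)
      have hN32 : ∀ z, (z ∈ Int S R1 (L1 ++ Q') ∨ (z ∈ LF ∨ (z ∈ QI ∧ rep (κ z) = z))) →
          N3 z = N2 z ∧ rk3 z = rk2 z := by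
        intro z hz
        rcases hz with hz | hz
        · obtain ⟨e1, e2, e3, e4⟩ := k1 z (hout2 z hz.1)
          exact ⟨e3, e4⟩
        · obtain ⟨e1, e2, e3, e4⟩ := hzN z hz
          exact ⟨e1.trans e3.symm, e2.trans e4.symm⟩
      refine ⟨ℓ3, lab3, N3, rk3, ?_, ?_, ?_, ?_, ?_, ?_⟩
      · -- outside
        intro v hv
        have h1 : v ∉ Int S R1 (L1 ++ Q') := fun h => hv (hI1 v h)
        have h2 : v ∉ Int S R2 (L2 ++ Q) := fun h => hv (hI2 v h)
        have h3 : v ∉ QI := fun h => hv (hQIint v h)
        obtain ⟨e1, e2, e3, e4⟩ := k1 v h2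
        obtain ⟨e5, e6, e7, e8⟩ := g1 v h1
        refine ⟨?_, ?_, ?_, ?_⟩
        · rw [e1, e5]; simp [ℓ1, h3]
        · rw [e2, e6]; simp [lab0, h3]
        · rw [e3, e7]; simp [N0, h3]
        · rw [e4, e8]; simp [rk0, h3]
      · -- bounds
        intro v hv
        rcases hI v hv with h | h | h
        · obtain ⟨e1, e2⟩ := hv1 v h.1
          rw [e1, e2]
          exact ⟨(g2 v h).1, hI1 _ (g2 v h).2⟩
        · exact ⟨(k2 v h).1, hI2 _ (k2 v h).2⟩
        · obtain ⟨e1, e2, e3, e4⟩ := hvQ v h
          rw [e1, e2]
          exact ⟨hℓ0M v, hQIint _ (hrep v h).1⟩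
      · -- edges
        rintro x y ⟨e, he, hj⟩
        have he' : e ∈ S.ER R1 ∨ e ∈ S.ER R2 := by
          rw [← hU] at he
          rcases he with (h | h) | (h | h)
          · exact Or.inl (Or.inl h)
          · exact Or.inr (Or.inl h)
          · exact Or.inl (Or.inr h)
          · exact Or.inr (Or.inr h)
        rcases he' with h | h
        · have hadj : (S.gr R1).Adj x y := ⟨e, h, hj⟩
          obtain ⟨hx, hy⟩ := gr_adj_VR hadj
          rw [(hv1 x hx).1, (hv1 y hy).1]
          exact g3 x y hadj
        · exact k3 x y ⟨e, h, hj⟩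
      · -- injectivity
        intro x hx y hy hlab hℓ
        have hlx : (x ∈ Int S R1 (L1 ++ Q') → lab3 x ∈ Int S R1 (L1 ++ Q')) ∧
            (x ∈ Int S R2 (L2 ++ Q) → lab3 x ∈ Int S R2 (L2 ++ Q)) ∧
            (x ∈ QI → lab3 x ∈ QI) :=
          ⟨fun h => by rw [(hv1 x h.1).2]; exact (g2 x h).2, fun h => (k2 x h).2,
            fun h => by rw [(hvQ x h).2.1]; exact (hrep x h).1⟩
        have hly : (y ∈ Int S R1 (L1 ++ Q') → lab3 y ∈ Int S R1 (L1 ++ Q')) ∧
            (y ∈ Int S R2 (L2 ++ Q) → lab3 y ∈ Int S R2 (L2 ++ Q)) ∧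
            (y ∈ QI → lab3 y ∈ QI) :=
          ⟨fun h => by rw [(hv1 y h.1).2]; exact (g2 y h).2, fun h => (k2 y h).2,
            fun h => by rw [(hvQ y h).2.1]; exact (hrep y h).1⟩
        rcases hI x hx with h | h | h <;> rcases hI y hy with h' | h' | h'
        · rw [(hv1 x h.1).1, (hv1 y h'.1).1] at hℓ
          rw [(hv1 x h.1).2, (hv1 y h'.1).2] at hlab
          exact g4 x h y h' hlab hℓ
        · exfalso
          have h1 := hlx.1 h
          have h2 := hly.2.1 h'
          rw [hlab] at h1
          exact SF.d1 _ h1 h2.1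
        · exfalso
          have h1 := hlx.1 h
          have h2 := hly.2.2 h'
          rw [hlab] at h1
          exact (hQIout _ h2).1 h1
        · exfalso
          have h1 := hlx.2.1 h
          have h2 := hly.1 h'
          rw [hlab] at h1
          exact SF.d1 _ h2 h1.1
        · exact k4 x h y h' hlab hℓ
        · exfalso
          have h1 := hlx.2.1 h
          have h2 := hly.2.2 h'
          rw [hlab] at h1
          exact (hQIout _ h2).2 h1
        · exfalso
          have h1 := hlx.2.2 h
          have h2 := hly.1 h'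
          rw [hlab] at h1
          exact (hQIout _ h1).1 h2
        · exfalso
          have h1 := hlx.2.2 h
          have h2 := hly.2.1 h'
          rw [hlab] at h1
          exact (hQIout _ h1).2 h2
        · obtain ⟨e1, e2, -, -⟩ := hvQ x h
          obtain ⟨e3, e4, -, -⟩ := hvQ y h'
          rw [e1, e3] at hℓ
          rw [e2, e4] at hlab
          have hk : κ x = κ y := by
            rw [← (hrep x h).2, ← (hrep y h').2, hlab]
          exact hκinj x h y h' hk hℓ
      · -- adjacency of labels
        rintro x y ⟨e, he, hj⟩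
        have he' : e ∈ S.ER R1 ∨ e ∈ S.ER R2 := by
          rw [← hU] at he
          rcases he with (h | h) | (h | h)
          · exact Or.inl (Or.inl h)
          · exact Or.inr (Or.inl h)
          · exact Or.inl (Or.inr h)
          · exact Or.inr (Or.inr h)
        rcases he' with h | h
        · have hadj : (S.gr R1).Adj x y := ⟨e, h, hj⟩
          obtain ⟨hx, hy⟩ := gr_adj_VR hadj
          rw [(hv1 x hx).2, (hv1 y hy).2, (hN32 _ (hlab2mem x hx)).1, (hN32 _ (hlab2mem y hy)).1]
          exact g5 x y hadj
        · exact k5 x y ⟨e, h, hj⟩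
      · -- the certificate
        intro y hy
        rcases hI y hy with h | h | h
        · -- first half
          obtain ⟨c1, c2, c3, c4⟩ := g6 y h
          have hmem : ∀ z ∈ N2 y, (z ∈ Int S R1 (L1 ++ Q') ∨
              (z ∈ LF ∨ (z ∈ QI ∧ rep (κ z) = z))) := by
            intro z hz
            rcases c4 z hz with h' | ⟨x, hx, rfl⟩
            · exact Or.inl h'
            · exact Or.inr (hlabel x (hF1 x hx))
          obtain ⟨e1, e2⟩ := hN32 y (Or.inl h)
          rw [e1, e2]
          refine ⟨c1, ?_, ?_, ?_⟩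
          · intro z hz
            rw [(hN32 z (hmem z hz)).2]
            exact c2 z hz
          · intro z hz w hw hzw
            rw [(hN32 z (hmem z hz)).1, (hN32 w (hmem w hw)).1]
            exact c3 z hz w hw hzw
          · intro z hz
            rcases hmem z hz with h' | h' | h'
            · exact Or.inl (hI1 z h')
            · right
              obtain ⟨x, hx, hxz⟩ := (hLF z).1 h'
              exact ⟨x, hx, hxz.symm⟩
            · exact Or.inl (hQIint z h'.1)
        · obtain ⟨c1, c2, c3, c4⟩ := k6 y h
          refine ⟨c1, c2, c3, ?_⟩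
          intro z hz
          rcases c4 z hz with h' | ⟨x, hx, rfl⟩
          · exact Or.inl (hI2 z h')
          · rw [hlab2F x hx]
            rcases hlabel x (hF2 x hx) with h' | h'
            · right
              obtain ⟨x', hx', hxz⟩ := (hLF _).1 h'
              exact ⟨x', hx', hxz.symm⟩
            · exact Or.inl (hQIint _ h'.1)
        · obtain ⟨-, -, e3, e4⟩ := hvQ y h
          rw [e3, e4]
          have hmem : ∀ z ∈ LF ∪ RP (κ y), (z ∈ LF ∨ (z ∈ QI ∧ rep (κ z) = z)) := by
            intro z hz
            rcases Finset.mem_union.1 hz with h' | h'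
            · exact Or.inl h'
            · obtain ⟨a1, a2, a3⟩ := (hRP _ _).1 h'
              exact Or.inr ⟨a1, a3⟩
          refine ⟨?_, ?_, ?_, ?_⟩
          · have h1 : LF.card ≤ 79 := by
              have := card_image_le_chg lab (L.map Prod.fst)
              have := (chg_append_singleton_le lab (L.map Prod.fst) u).1
              show ((L.map Prod.fst).toFinset.image lab).card ≤ 79
              omega
            have h2 := hRPc (κ y)
            have h3 := hκ y
            have h4 := Finset.card_union_le LF (RP (κ y))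
            omega
          · intro z hz
            rw [(hzN z (hmem z hz)).2.1]
            rcases Finset.mem_union.1 hz with h' | h'
            · have : rk0 z = rk z := by simp [rk0, hLFQ' _ h']
              rw [this]
              obtain ⟨x, hx, rfl⟩ := (hLF z).1 h'
              have := hρ x hx; omega
            · obtain ⟨a1, a2, a3⟩ := (hRP _ _).1 h'
              have : rk0 z = ρ + 1 + κ z := by simp [rk0, a1]
              rw [this]; omega
          · intro z hz w hw hzw
            rw [(hzN z (hmem z hz)).1, (hzN w (hmem w hw)).1]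
            exact hcl0 z w (hmem z hz) (hmem w hw) hzw
          · intro z hz
            rcases hmem z hz with h' | h'
            · right
              obtain ⟨x, hx, hxz⟩ := (hLF z).1 h'
              exact ⟨x, hx, hxz.symm⟩
            · exact Or.inl (hQIint z h'.1)

end H91PP
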