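import Pool.Agent.Helper91_PP.Statements

namespace H91PP

open TriSphere

section chg

variable {α β γ : Type}

theorem chg_cons_cons (f : α → β) (x y : α) (l : List α) :
    chg f (x :: y :: l) = (open Classical in if f x = f y then 0 else 1) + chg f (y :: l) := rfl

theorem chg_glue (f : α → β) (A : List α) (x : α) (B : List α) :
    chg f (A ++ x :: B) = chg f (A ++ [x]) + chg f (x :: B) := by
  induction A with
  | nil => simp [chg]
  | cons a A ih =>
    cases A with
    | nil =>
      simp only [List.nil_append, List.cons_append, chg_cons_cons] at ih ⊢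
      simp [chg]
    | cons b A =>
      simp only [List.cons_append, chg_cons_cons] at ih ⊢
      rw [ih]; ring

theorem chg_reverse (f : α → β) (l : List α) : chg f l.reverse = chg f l := by
  induction l with
  | nil => rfl
  | cons a l ih =>
    cases l with
    | nil => rfl
    | cons b l =>
      rw [chg_cons_cons, ← ih]
      have h1 : (a :: b :: l).reverse = l.reverse ++ b :: [a] := by simp
      rw [h1, chg_glue]
      have h2 : (b :: l).reverse = l.reverse ++ [b] := by simp
      rw [h2, chg_cons_cons]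
      have h3 : chg f [a] = 0 := rfl
      rw [h3]
      by_cases hab : f a = f b
      · simp [hab]
      · have : ¬ f b = f a := fun h => hab h.symm
        simp [hab, this]; ring

theorem chg_congr (f : α → β) (g : α → β) (l : List α) (h : ∀ x ∈ l, f x = g x) :
    chg f l = chg g l := by
  induction l with
  | nil => rfl
  | cons a l ih =>
    cases l with
    | nil => rfl
    | cons b l =>
      rw [chg_cons_cons, chg_cons_cons, ih (fun x hx => h x (List.mem_cons_of_mem _ hx)),
        h a (by simp), h b (by simp)]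

theorem chg_comp_le (f : α → β) (κ : α → γ) (l : List α)
    (h : ∀ x ∈ l, ∀ y ∈ l, κ x = κ y → f x = f y) : chg f l ≤ chg κ l := by
  induction l with
  | nil => exact le_rfl
  | cons a l ih =>
    cases l with
    | nil => exact le_rfl
    | cons b l =>
      rw [chg_cons_cons, chg_cons_cons]
      have ih' := ih (fun x hx y hy => h x (List.mem_cons_of_mem _ hx) y (List.mem_cons_of_mem _ hy))
      by_cases hk : κ a = κ b
      · have := h a (by simp) b (by simp) hk
        simp [hk, this, ih']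
      · by_cases hf : f a = f b
        · simp [hk, hf]; omega
        · simp [hk, hf, ih']

theorem chg_append_singleton_le (f : α → β) (l : List α) (z : α) :
    chg f l ≤ chg f (l ++ [z]) ∧ chg f (l ++ [z]) ≤ chg f l + 1 := by
  rcases List.eq_nil_or_concat l with h | ⟨l', x, h⟩
  · subst h; simp [chg]
  · subst h
    have : l' ++ [x] ++ [z] = l' ++ x :: [z] := by simp
    rw [List.concat_eq_append, this, chg_glue f l' x [z]]
    rw [chg_cons_cons]
    have : chg f [z] = 0 := rfl
    rw [this]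
    split_ifs <;> omega

theorem chg_cons_le (f : α → β) (l : List α) (z : α) : chg f (z :: l) ≤ chg f l + 1 := by
  cases l with
  | nil => simp [chg]
  | cons a l =>
    rw [chg_cons_cons]
    split_ifs <;> omega

open Classical in
theorem card_image_le_chg (f : α → β) (l : List α) :
    (l.toFinset.image f).card ≤ chg f l + 1 := by
  induction l with
  | nil => simp
  | cons a l ih =>
    cases l with
    | nil => simp [chg]
    | cons b l =>
      rw [chg_cons_cons]
      by_cases hab : f a = f b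
      · have : ((a :: b :: l).toFinset.image f) = ((b :: l).toFinset.image f) := by
          rw [List.toFinset_cons (a := a), Finset.image_insert, hab, Finset.insert_eq_self]
          exact Finset.mem_image_of_mem f (by simp)
        rw [this]; simp [hab]; simpa using ih
      · have : ((a :: b :: l).toFinset.image f).card ≤ ((b :: l).toFinset.image f).card + 1 := by
          rw [List.toFinset_cons (a := a), Finset.image_insert]
          exact Finset.card_insert_le _ _
        simp only [hab, if_false]; omega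

end chg

namespace TriSphere

variable (S : TriSphere)

theorem corner_of_end {e : S.E} {v : S.V} (h : S.a e = v ∨ S.b e = v) :
    (∃ i, S.c (S.l e) i = v) ∧ (∃ i, S.c (S.r e) i = v) := by
  constructor
  · obtain ⟨i, hi⟩ := S.l_s e
    have := S.s_ends (S.l e) i
    rw [hi] at this
    rcases this with ⟨h1, h2⟩ | ⟨h1, h2⟩ <;> rcases h with h | h
    · exact ⟨i, h1.symm.trans h⟩
    · exact ⟨i + 1, h2.symm.trans h⟩
    · exact ⟨i + 1, h1.symm.trans h⟩
    · exact ⟨i, h2.symm.trans h⟩
  · obtain ⟨i, hi⟩ := S.r_s e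
    have := S.s_ends (S.r e) i
    rw [hi] at this
    rcases this with ⟨h1, h2⟩ | ⟨h1, h2⟩ <;> rcases h with h | h
    · exact ⟨i, h1.symm.trans h⟩
    · exact ⟨i + 1, h2.symm.trans h⟩
    · exact ⟨i + 1, h1.symm.trans h⟩
    · exact ⟨i, h2.symm.trans h⟩

variable {S}

theorem Joins.ends {e : S.E} {x y : S.V} (h : S.Joins e x y) :
    (S.a e = x ∨ S.b e = x) ∧ (S.a e = y ∨ S.b e = y) := by
  rcases h with ⟨h1, h2⟩ | ⟨h1, h2⟩
  · exact ⟨Or.inl h1, Or.inr h2⟩
  · exact ⟨Or.inr h2, Or.inl h1⟩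

theorem mem_VR_of_ER {R : Set S.T} {e : S.E} (he : e ∈ S.ER R) {v : S.V}
    (h : S.a e = v ∨ S.b e = v) : v ∈ S.VR R := by
  obtain ⟨⟨i, hi⟩, ⟨j, hj⟩⟩ := S.corner_of_end h
  rcases he with he | he
  · exact ⟨_, he, i, hi⟩
  · exact ⟨_, he, j, hj⟩

theorem gr_adj_VR {R : Set S.T} {x y : S.V} (h : (S.gr R).Adj x y) :
    x ∈ S.VR R ∧ y ∈ S.VR R := by
  obtain ⟨e, he, hj⟩ := h
  exact ⟨mem_VR_of_ER he hj.ends.1, mem_VR_of_ER he hj.ends.2⟩

theorem VR_mono {R R' : Set S.T} (h : R ⊆ R') : S.VR R ⊆ S.VR R' := by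
  rintro v ⟨t, ht, i, hi⟩
  exact ⟨t, h ht, i, hi⟩

theorem gr_mono {R R' : Set S.T} (h : R ⊆ R') {x y : S.V} (hxy : (S.gr R).Adj x y) :
    (S.gr R').Adj x y := by
  obtain ⟨e, he, hj⟩ := hxy
  refine ⟨e, ?_, hj⟩
  rcases he with he | he
  · exact Or.inl (h he)
  · exact Or.inr (h he)

/-- the edge leaving a vertex of a walk -/
theorem IsW.leaving : ∀ {L : List (S.V × S.E)} {u w : S.V}, S.IsW u L w →
    ∀ p ∈ L, S.a p.2 = p.1 ∨ S.b p.2 = p.1
  | [], _, _, _, p, hp => by simp at hp
  | q :: L, u, w, h, p, hp => by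
    obtain ⟨_, v', hj, h'⟩ := h
    rcases List.mem_cons.1 hp with rfl | hp
    · exact hj.ends.1
    · exact IsW.leaving h' p hp

/-- a boundary vertex touches a triangle outside the region -/
theorem IsRegion.outside {R : Set S.T} {L : List (S.V × S.E)} {u : S.V}
    (h : S.IsRegion R L u) {x : S.V} (hx : x ∈ L.map Prod.fst) :
    ∃ t, t ∉ R ∧ ∃ i, S.c t i = x := by
  obtain ⟨p, hp, rfl⟩ := List.mem_map.1 hx
  have he := h.walk.leaving p hp
  have hb : p.2 ∈ S.bd R := (h.bd_eq p.2).2 (List.mem_map_of_mem hp)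
  obtain ⟨⟨i, hi⟩, ⟨j, hj⟩⟩ := S.corner_of_end he
  by_cases hl : S.l p.2 ∈ R
  · have hr : S.r p.2 ∉ R := fun hr => hb ⟨fun _ => hr, fun _ => hl⟩
    exact ⟨_, hr, j, hj⟩
  · exact ⟨_, hl, i, hi⟩

end TriSphere

/-- interior vertices -/
def Int (S : TriSphere) (R : Set S.T) (L : List (S.V × S.E)) : Set S.V :=
  {v | v ∈ S.VR R ∧ v ∉ L.map Prod.fst}

/-- all set facts on a split region -/
structure SplitFacts (S : TriSphere) (R R1 R2 : Set S.T) (L L1 L2 : List (S.V × S.E))
    (QI : List S.V) : Prop where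
  F1 : ∀ v ∈ L1.map Prod.fst, v ∈ L.map Prod.fst ∨ v ∈ QI
  F2 : ∀ v ∈ L2.map Prod.fst, v ∈ L.map Prod.fst ∨ v ∈ QI
  Q : ∀ v ∈ QI, v ∈ L1.map Prod.fst ∧ v ∈ L2.map Prod.fst ∧ v ∈ Int S R L
  I1 : ∀ v ∈ Int S R1 L1, v ∈ Int S R L
  I2 : ∀ v ∈ Int S R2 L2, v ∈ Int S R L
  d1 : ∀ v ∈ Int S R1 L1, v ∉ S.VR R2
  d2 : ∀ v ∈ Int S R2 L2, v ∉ S.VR R1
  I : ∀ v ∈ Int S R L, v ∈ Int S R1 L1 ∨ v ∈ Int S R2 L2 ∨ v ∈ QI

theorem splitFacts (S : TriSphere) (hRF : RegionFacts S) (R R1 R2 : Set S.T)
    (L1 L2 Q Q' : List (S.V × S.E)) (b1 b2 : S.V)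
    (hR : S.IsRegion R (L1 ++ L2) b1)
    (hQ : S.IsChord R (L1 ++ L2) Q b1 b2)
    (hQ' : Q'.map Prod.fst ++ [b1] = (Q.map Prod.fst ++ [b2]).reverse)
    (hU : R1 ∪ R2 = R) (hd : Disjoint R1 R2)
    (hR1 : S.IsRegion R1 (L1 ++ Q') b1) (hR2 : S.IsRegion R2 (L2 ++ Q) b2) :
    SplitFacts S R R1 R2 (L1 ++ L2) (L1 ++ Q') (L2 ++ Q) (Q.map Prod.fst).tail := by
  obtain ⟨p, Qt, rfl⟩ : ∃ p Qt, Q = p :: Qt := by
    cases Q with
    | nil => exact absurd rfl hQ.ne
    | cons p Qt => exact ⟨p, Qt, rfl⟩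
  have hp1 : p.1 = b1 := hQ.walk.1.symm
  simp only [List.map_cons, List.tail_cons]
  have hnd := hQ.nd
  simp only [List.map_cons, List.cons_append, List.nodup_cons] at hnd
  have hQI : ∀ v ∈ Qt.map Prod.fst, v ∈ Int S R (L1 ++ L2) := by
    intro v hv
    constructor
    · obtain ⟨q, hq, rfl⟩ := List.mem_map.1 hv
      have he := hQ.walk.leaving q (List.mem_cons_of_mem _ hq)
      have := hQ.ed q.2 (List.mem_map_of_mem (List.mem_cons_of_mem _ hq))
      exact mem_VR_of_ER this.1 he
    · rcases hQ.int v (by simp only [List.map_cons, List.mem_cons]; exact Or.inr hv) with h | h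
      · exfalso
        apply hnd.1
        rw [hp1, ← h]
        exact List.mem_append_left _ hv
      · exact h
  have hR1s : R1 ⊆ R := hU ▸ Set.subset_union_left
  have hR2s : R2 ⊆ R := hU ▸ Set.subset_union_right
  have hQm : ∀ v, v ∈ Q'.map Prod.fst ↔ v = b2 ∨ v ∈ Qt.map Prod.fst := by
    intro v
    have h1 : Q'.map Prod.fst ++ [b1] = (b2 :: (Qt.map Prod.fst).reverse) ++ [b1] := by
      rw [hQ']; simp [hp1]
    have h2 : Q'.map Prod.fst = b2 :: (Qt.map Prod.fst).reverse := List.append_cancel_right h1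
    rw [h2]
    simp [List.mem_reverse]
  have hI1 : ∀ v ∈ Int S R1 (L1 ++ Q'), v ∈ Int S R (L1 ++ L2) := by
    intro v hv
    refine ⟨VR_mono hR1s hv.1, fun h => ?_⟩
    obtain ⟨t, ht, i, hi⟩ := hR.outside h
    exact ht (hR1s (hRF.intTri _ _ _ hR1 v hv.1 hv.2 t i hi))
  have hI2 : ∀ v ∈ Int S R2 (L2 ++ (p :: Qt)), v ∈ Int S R (L1 ++ L2) := by
    intro v hv
    refine ⟨VR_mono hR2s hv.1, fun h => ?_⟩
    obtain ⟨t, ht, i, hi⟩ := hR.outside h
    exact ht (hR2s (hRF.intTri _ _ _ hR2 v hv.1 hv.2 t i hi))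
  refine ⟨?_, ?_, ?_, hI1, hI2, ?_, ?_, ?_⟩
  · intro v hv
    rw [List.map_append, List.mem_append] at hv
    rcases hv with hv | hv
    · left; rw [List.map_append, List.mem_append]; exact Or.inl hv
    · rw [hQm] at hv
      rcases hv with rfl | hv
      · exact Or.inl hQ.b2F
      · exact Or.inr hv
  · intro v hv
    rw [List.map_append, List.mem_append] at hv
    rcases hv with hv | hv
    · left; rw [List.map_append, List.mem_append]; exact Or.inr hv
    · simp only [List.map_cons, List.mem_cons] at hv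
      rcases hv with rfl | hv
      · left; rw [hp1]; exact hQ.b1F
      · exact Or.inr hv
  · intro v hv
    refine ⟨?_, ?_, hQI v hv⟩
    · rw [List.map_append, List.mem_append, hQm]; exact Or.inr (Or.inr hv)
    · rw [List.map_append, List.mem_append]
      right; simp only [List.map_cons, List.mem_cons]; exact Or.inr hv
  · rintro v hv ⟨t, ht, i, hi⟩
    exact Set.disjoint_left.1 hd (hRF.intTri _ _ _ hR1 v hv.1 hv.2 t i hi) ht
  · rintro v hv ⟨t, ht, i, hi⟩
    exact Set.disjoint_left.1 hd ht (hRF.intTri _ _ _ hR2 v hv.1 hv.2 t i hi)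
  · intro v hv
    obtain ⟨t, ht, i, hi⟩ := hv.1
    rw [← hU] at ht
    by_cases hq : v ∈ Qt.map Prod.fst
    · exact Or.inr (Or.inr hq)
    rcases ht with ht | ht
    · left
      refine ⟨⟨t, ht, i, hi⟩, fun h => ?_⟩
      rw [List.map_append, List.mem_append, hQm] at h
      rcases h with h | h | h
      · exact hv.2 (by rw [List.map_append, List.mem_append]; exact Or.inl h)
      · exact hv.2 (h ▸ hQ.b2F)
      · exact hq h
    · right; left
      refine ⟨⟨t, ht, i, hi⟩, fun h => ?_⟩
      rw [List.map_append, List.mem_append] at h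
      simp only [List.map_cons, List.mem_cons] at h
      rcases h with h | h | h
      · exact hv.2 (by rw [List.map_append, List.mem_append]; exact Or.inr h)
      · exact hv.2 (by rw [h, hp1]; exact hQ.b1F)
      · exact hq h

end H91PP
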