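import Pool.Agent.Helper91_PP.Defs

/-!
# Module statements for MP_9863c1_co

Every module proves one (or a few) of the following propositions.
-/

namespace H91PP

open TriSphere

/-- the folding function: a triangle wave with values in `[0, M]` -/
def fold (M t : ℕ) : ℕ := if t % (2 * M) ≤ M then t % (2 * M) else 2 * M - t % (2 * M)

/-! ### Module A -/

/-- Separation lemma. -/
def SepStatement (S : TriSphere) : Prop :=
  ∀ (N : Set S.T) (A B : Set S.V), A.Nonempty → B.Nonempty →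
    (∀ x ∈ A, ∀ y ∈ A, ∃ p : (S.grE Set.univ).Walk x y, ∀ v ∈ p.support, v ∈ A) →
    (∀ x ∈ B, ∀ y ∈ B, ∃ p : (S.grE Set.univ).Walk x y, ∀ v ∈ p.support, v ∈ B) →
    (∀ t i, S.c t i ∈ A → t ∈ N) → (∀ t i, S.c t i ∈ B → t ∉ N) →
    ∃ Z : Set S.E, Z ⊆ S.bd N ∧
      (∀ v w, (∃ e ∈ Z, S.a e = v ∨ S.b e = v) → (∃ e ∈ Z, S.a e = w ∨ S.b e = w) →
        (S.grE Z).Reachable v w) ∧
      (∀ x ∈ A, ∀ y ∈ B, ∀ p : (S.grE Set.univ).Walk x y,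
        ∃ v ∈ p.support, ∃ e ∈ Z, S.a e = v ∨ S.b e = v)

/-! ### Module B -/

/-- Basic facts on regions. -/
structure RegionFacts (S : TriSphere) : Prop where
  conn : ∀ R L u, S.IsRegion R L u → ∀ x ∈ S.VR R, (S.gr R).Reachable u x
  intTri : ∀ R L u, S.IsRegion R L u → ∀ x ∈ S.VR R, x ∉ L.map Prod.fst →
    ∀ t i, S.c t i = x → t ∈ R
  bdV : ∀ R L u, S.IsRegion R L u → ∀ x ∈ L.map Prod.fst, x ∈ S.VR R

/-- Splitting a region along a chord. -/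
def ChordSplitStatement (S : TriSphere) : Prop :=
  ∀ (R : Set S.T) (L1 L2 Q : List (S.V × S.E)) (b1 b2 : S.V),
    S.IsRegion R (L1 ++ L2) b1 → S.IsW b1 L1 b2 → S.IsW b2 L2 b1 →
    S.IsChord R (L1 ++ L2) Q b1 b2 →
    ∃ (Q' : List (S.V × S.E)) (R1 R2 : Set S.T),
      S.IsW b2 Q' b1 ∧
      Q'.map Prod.fst ++ [b1] = (Q.map Prod.fst ++ [b2]).reverse ∧
      R1 ∪ R2 = R ∧ Disjoint R1 R2 ∧ R1.Nonempty ∧ R2.Nonempty ∧
      S.IsRegion R1 (L1 ++ Q') b1 ∧ S.IsRegion R2 (L2 ++ Q) b2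

/-! ### Module C -/

/-- Level sets inside a region contain connected separating sets. -/
def LevelStatement (S : TriSphere) : Prop :=
  ∀ (R : Set S.T) (L : List (S.V × S.E)) (u : S.V), S.IsRegion R L u →
  ∀ δ : S.V → ℕ, IsExt (S.gr R) {v | v ∈ L.map Prod.fst} (fun _ => 0) δ →
  ∀ j : ℕ, 1 ≤ j → ∀ x0 ∈ S.VR R, j < δ x0 →
  ∃ Z : Set S.E,
    (∀ e ∈ Z, e ∈ S.ER R ∧ δ (S.a e) = j ∧ δ (S.b e) = j) ∧
    (∀ v w, (∃ e ∈ Z, S.a e = v ∨ S.b e = v) → (∃ e ∈ Z, S.a e = w ∨ S.b e = w) →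
      (S.grE Z).Reachable v w) ∧
    (∀ y, (∃ q : (S.gr R).Walk x0 y, ∀ v ∈ q.support, j < δ v) →
      ∀ b ∈ L.map Prod.fst, ∀ p : (S.grE Set.univ).Walk y b,
        ∃ v ∈ p.support, ∃ e ∈ Z, S.a e = v ∨ S.b e = v)

/-- Module C proves this. -/
def LevelThm : Prop :=
  ∀ S : TriSphere, SepStatement S → RegionFacts S → LevelStatement S

/-! ### Module D -/

/-- Extension of a Lipschitz function by distances. -/
def BfsStatement : Prop :=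
  ∀ (V : Type) (Γ : SimpleGraph V) (B : Set V) (ℓ : V → ℕ),
    (∀ x ∈ B, ∀ y ∈ B, ∀ p : Γ.Walk x y, ℓ y ≤ ℓ x + p.length) →
    ∃ m : V → ℕ, IsExt Γ B ℓ m

/-- Properties of the folding function. -/
def FoldStatement : Prop :=
  ∀ M : ℕ, 1 ≤ M →
    (∀ t, fold M t ≤ M) ∧ (∀ t, t ≤ M → fold M t = t) ∧
    (∀ t, fold M (t + 1) ≤ fold M t + 1 ∧ fold M t ≤ fold M (t + 1) + 1) ∧
    (∀ t t', t / M = t' / M → fold M t = fold M t' → t = t')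

/-! ### Module E -/

/-- The short connection property (from small treewidth or from a small number of vertices). -/
def Short (S : TriSphere) (M : ℕ) : Prop :=
  ∀ (R : Set S.T) (L : List (S.V × S.E)) (u : S.V), S.IsRegion R L u →
  ∀ ℓ m : S.V → ℕ, (∀ v ∈ L.map Prod.fst, ℓ v ≤ M) →
  IsExt (S.gr R) {v | v ∈ L.map Prod.fst} ℓ m →
  ∀ x1 x2 : S.V, x1 ∈ S.VR R → (S.gr R).Adj x1 x2 → 4 * M + 2 ≤ m x1 →
  ∀ (b1 b2 : S.V) (P1 P2 : List (S.V × S.E)),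
  b1 ∈ L.map Prod.fst → b2 ∈ L.map Prod.fst →
  S.IsW b1 P1 x1 → S.IsW b2 P2 x2 →
  (∀ e ∈ P1.map Prod.snd, e ∈ S.ER R) → (∀ e ∈ P2.map Prod.snd, e ∈ S.ER R) →
  Up m (P1.map Prod.fst ++ [x1]) → Up m (P2.map Prod.fst ++ [x2]) →
  ∃ v1 ∈ P1.map Prod.fst, ∃ v2 ∈ P2.map Prod.fst,
    (∀ b ∈ L.map Prod.fst, ∀ p : (S.gr R).Walk b v1, M < p.length) ∧
    m v1 ≤ 4 * M ∧ m v2 ≤ 4 * M ∧
    ∃ p : (S.gr R).Walk v1 v2, 2 * p.length ≤ M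

/-- Existence of good chords. -/
def ChordStatement (S : TriSphere) (M : ℕ) : Prop :=
  ∀ (R : Set S.T) (L : List (S.V × S.E)) (u : S.V), S.IsRegion R L u →
  ∀ ℓ : S.V → ℕ, (∀ v ∈ L.map Prod.fst, ℓ v ≤ M) →
  (∀ x ∈ L.map Prod.fst, ∀ y ∈ L.map Prod.fst, ∀ p : (S.gr R).Walk x y,
    ℓ y ≤ ℓ x + p.length) →
  ∃ rt : S.V → S.V, (∀ x ∈ S.VR R, rt x ∈ L.map Prod.fst) ∧
  (∀ x ∈ L.map Prod.fst, rt x = x) ∧
  ∀ e x1 x2, e ∈ S.ER R → e ∉ L.map Prod.snd → S.Joins e x1 x2 → rt x1 ≠ rt x2 →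
  ∃ (Q : List (S.V × S.E)) (ℓ' κ : S.V → ℕ),
    S.IsChord R L Q (rt x1) (rt x2) ∧
    (∀ v ∈ L.map Prod.fst, ℓ' v = ℓ v) ∧
    (∀ v, ℓ' v ≤ M) ∧
    (∀ x y, (S.gr R).Adj x y → x ∈ S.VR R → ℓ' y ≤ ℓ' x + 1) ∧
    (∀ v, κ v < 24) ∧
    (∀ x ∈ (Q.map Prod.fst).tail, ∀ y ∈ (Q.map Prod.fst).tail,
      κ x = κ y → ℓ' x = ℓ' y → x = y) ∧
    chg κ (Q.map Prod.fst).tail ≤ 23

/-- Module E proves this. -/
def ChordThm : Prop :=
  ∀ (S : TriSphere) (M : ℕ), 2 ≤ M → RegionFacts S → BfsStatement → FoldStatement →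
    Short S M → ChordStatement S M

/-! ### Module F -/

/-- Selection of a balanced edge. -/
def SelectStatement (S : TriSphere) : Prop :=
  ∀ (R : Set S.T) (L : List (S.V × S.E)) (u : S.V), S.IsRegion R L u →
  (∀ t, R ≠ {t}) →
  ∀ rt : S.V → S.V, (∀ x ∈ S.VR R, rt x ∈ L.map Prod.fst) →
  (∀ x ∈ L.map Prod.fst, rt x = x) →
  ∀ lab : S.V → S.V,
  ∃ (e : S.E) (x1 x2 : S.V) (L1 L2 : List (S.V × S.E)),
    e ∈ S.ER R ∧ e ∉ L.map Prod.snd ∧ S.Joins e x1 x2 ∧ rt x1 ≠ rt x2 ∧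
    S.IsRegion R (L1 ++ L2) (rt x1) ∧ S.IsW (rt x1) L1 (rt x2) ∧ S.IsW (rt x2) L2 (rt x1) ∧
    (∀ v, v ∈ (L1 ++ L2).map Prod.fst ↔ v ∈ L.map Prod.fst) ∧
    (∀ e, e ∈ (L1 ++ L2).map Prod.snd ↔ e ∈ L.map Prod.snd) ∧
    chg lab (L1.map Prod.fst ++ [rt x2]) + chg lab (L2.map Prod.fst ++ [rt x1]) =
      chg lab (L.map Prod.fst ++ [u]) ∧
    (chg lab (L.map Prod.fst ++ [u]) ≤ 9 ∨
      (3 * chg lab (L1.map Prod.fst ++ [rt x2]) ≤ 2 * chg lab (L.map Prod.fst ++ [u]) + 3 ∧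
       3 * chg lab (L2.map Prod.fst ++ [rt x1]) ≤ 2 * chg lab (L.map Prod.fst ++ [u]) + 3))

/-! ### Module G -/

/-- The output of the recursion: layering, labelling and elimination certificate. -/
def CertOut (S : TriSphere) (M : ℕ) : Prop :=
  ∃ (ℓ : S.V → ℕ) (lab : S.V → S.V) (N : S.V → Finset S.V) (rk : S.V → ℕ),
    (∀ v, ℓ v ≤ M) ∧
    (∀ x y, (S.grE Set.univ).Adj x y → ℓ x ≤ ℓ y + 1) ∧
    (∀ x y, lab x = lab y → ℓ x = ℓ y → x = y) ∧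
    (∀ x y, (S.grE Set.univ).Adj x y → lab x = lab y ∨ lab x ∈ N (lab y) ∨ lab y ∈ N (lab x)) ∧
    (∀ y, (N y).card ≤ 110) ∧
    (∀ y, ∀ z ∈ N y, rk z < rk y) ∧
    (∀ y, ∀ z ∈ N y, ∀ w ∈ N y, z ≠ w → z ∈ N w ∨ w ∈ N z)

/-- The recursion. -/
def RecStatement : Prop :=
  ∀ (S : TriSphere) (M : ℕ), 2 ≤ M → RegionFacts S → ChordSplitStatement S →
    ChordStatement S M → SelectStatement S → CertOut S M

/-! ### Module H -/

/-- From an elimination certificate to a tree decomposition. -/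
def CertStatement : Prop :=
  ∀ (W : Type) [Finite W] (N : W → Finset W) (rk : W → ℕ) (c : ℕ),
    (∀ y, (N y).card ≤ c) → (∀ y, ∀ z ∈ N y, rk z < rk y) →
    (∀ y, ∀ z ∈ N y, ∀ w ∈ N y, z ≠ w → z ∈ N w ∨ w ∈ N z) →
    ∀ H : SimpleGraph W, (∀ x y, H.Adj x y → x ∈ N y ∨ y ∈ N x) → TreewidthLE H c

/-! ### Module I -/

/-- Short connections from counting vertices. -/
def ShortCountStatement : Prop :=
  ∀ (S : TriSphere) (M : ℕ), RegionFacts S → BfsStatement → LevelStatement S →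
    2 ≤ M → 2 * Nat.card S.V ≤ M * M → Short S M

/-! ### Module J -/

/-- `Φ` is the set of face vertices. -/
structure IsFaceSet (S : TriSphere) (Φ : Set S.V) : Prop where
  indep : ∀ x ∈ Φ, ∀ y ∈ Φ, ¬ (S.grE Set.univ).Adj x y
  tri : ∀ t, ∃ i, S.c t i ∈ Φ
  conn : ∀ φ ∈ Φ, ∀ x y, (S.grE Set.univ).Adj φ x → (S.grE Set.univ).Adj φ y →
    ∃ p : (S.grE Set.univ).Walk x y, ∀ v ∈ p.support, v ∉ Φ ∧ (S.grE Set.univ).Adj φ v

/-- Small separators between many disjoint connected sets of vertices outside `Φ`. -/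
def SepProp (S : TriSphere) (Φ : Set S.V) (k : ℕ) : Prop :=
  ∀ D : Fin (k + 2) → Set S.V, (∀ i, (D i).Nonempty) → (∀ i, ∀ x ∈ D i, x ∉ Φ) →
    (∀ i, ∀ x ∈ D i, ∀ y ∈ D i, ∃ p : (S.grE Set.univ).Walk x y, ∀ v ∈ p.support, v ∈ D i) →
    (∀ i j, i ≠ j → Disjoint (D i) (D j)) →
    ∃ A X : Set S.V, X.ncard ≤ k + 1 ∧ Disjoint A X ∧ (∀ x ∈ A, x ∉ Φ) ∧ (∀ x ∈ X, x ∉ Φ) ∧
      (∀ x ∈ A, ∀ y, y ∉ Φ → (S.grE Set.univ).Adj x y → y ∈ A ∨ y ∈ X) ∧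
      ∃ i j, D i ⊆ A ∧ Disjoint (D j) (A ∪ X)

/-- Short connections from small separators. -/
def ShortTwStatement : Prop :=
  ∀ (S : TriSphere) (Φ : Set S.V) (k M : ℕ), RegionFacts S → BfsStatement →
    SepStatement S → LevelStatement S →
    IsFaceSet S Φ → SepProp S Φ k → 4 * (k + 1) ≤ M → Short S M

/-- Small separators from a tree decomposition. -/
def TreeSepStatement : Prop :=
  ∀ (V : Type) [Finite V] (G : SimpleGraph V) (k : ℕ), TreewidthLE G k →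
    ∀ D : Fin (k + 2) → Set V, (∀ i, (D i).Nonempty) →
    (∀ i, ∀ x ∈ D i, ∀ y ∈ D i, ∃ p : G.Walk x y, ∀ v ∈ p.support, v ∈ D i) →
    (∀ i j, i ≠ j → Disjoint (D i) (D j)) →
    ∃ A X : Set V, X.ncard ≤ k + 1 ∧ Disjoint A X ∧
      (∀ x ∈ A, ∀ y, G.Adj x y → y ∈ A ∨ y ∈ X) ∧
      ∃ i j, D i ⊆ A ∧ Disjoint (D j) (A ∪ X)

/-! ### Module K -/

/-- Vanishing of the first homology from Euler's formula. -/
def HomStatement : Prop :=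
  ∀ (V E T : Type) [Finite V] [Finite E] [Finite T] (a b : E → V) (l r : E → T),
    (∀ e, a e ≠ b e) → (∀ e, l e ≠ r e) →
    (∀ t v, Even (Set.ncard {e | (l e = t ∨ r e = t) ∧ (a e = v ∨ b e = v)})) →
    (∀ A : Set V, (∀ e, a e ∈ A ↔ b e ∈ A) → A = ∅ ∨ A = Set.univ) →
    (∀ N : Set T, (∀ e, l e ∈ N ↔ r e ∈ N) → N = ∅ ∨ N = Set.univ) →
    Nonempty V → Nonempty T →
    Nat.card V + Nat.card T = Nat.card E + 2 →
    ∀ Z : Set E, (∀ v, Even (Set.ncard {e | e ∈ Z ∧ (a e = v ∨ b e = v)})) →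
      ∃ N : Set T, ∀ e, e ∈ Z ↔ ¬ (l e ∈ N ↔ r e ∈ N)

/-- The stellation of a connected plane graph. -/
def StellStatement : Prop :=
  ∀ (V : Type) [Finite V] (G : SimpleGraph V), G.Connected → HasPlaneRotation G →
    ∃ (S : TriSphere) (Φ : Set S.V) (ι : V → S.V), Function.Injective ι ∧
      (∀ x, x ∈ Φ ↔ x ∉ Set.range ι) ∧
      (∀ x y, G.Adj x y ↔ (S.grE Set.univ).Adj (ι x) (ι y)) ∧
      IsFaceSet S Φ ∧ Nat.card S.V ≤ 3 * Nat.card V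

end H91PP
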